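import Pool.Agent.Helper580.Rec.Window

set_option autoImplicit false
open Filter Topology

namespace Pool.Agent.Helper580.Rec

variable {a : ℕ → ℕ}

/-! ### Binomial rates -/

theorem choose_one (A d t : ℕ) (j : ℕ) (hj : j ≤ d) :
    Nat.choose (d.factorial * A * t + j) j ≡ 1 [MOD A] := by
  induction j with
  | zero => simp [Nat.ModEq]
  | succ j ih =>
    have ih := ih (by omega)
    obtain ⟨e, he⟩ : (j + 1) ∣ d.factorial := Nat.dvd_factorial (by omega) hj
    have h := Nat.add_one_mul_choose_eq (d.factorial * A * t + j) j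
    have h2 : Nat.choose (d.factorial * A * t + (j + 1)) (j + 1)
        = (A * (e * t) + 1) * Nat.choose (d.factorial * A * t + j) j := by
      have h3 : (j + 1) * Nat.choose (d.factorial * A * t + (j + 1)) (j + 1)
        = (j + 1) * ((A * (e * t) + 1) * Nat.choose (d.factorial * A * t + j) j) := by
        have e1 : d.factorial * A * t + (j + 1) = d.factorial * A * t + j + 1 := rfl
        rw [e1, mul_comm (j + 1), ← h]
        have e2 : d.factorial * A * t + j + 1 = (j + 1) * (A * (e * t) + 1) := by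
          rw [he]; ring
        rw [e2]; ring
      exact Nat.eq_of_mul_eq_mul_left (Nat.succ_pos j) h3
    rw [h2]
    have h4 : A * (e * t) + 1 ≡ 1 [MOD A] := by
      have : A * (e * t) ≡ 0 [MOD A] := (Nat.modEq_zero_iff_dvd).2 (Dvd.intro _ rfl)
      simpa using this.add_right 1
    simpa using h4.mul ih

theorem choose_zero (A d t : ℕ) (hd : 1 ≤ d) :
    A ∣ Nat.choose (d.factorial * A * t + (d - 1)) d := by
  obtain ⟨d, rfl⟩ : ∃ e, d = e + 1 := ⟨d - 1, by omega⟩
  have h1 := choose_one A (d + 1) t (d + 1) le_rfl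
  have h2 := choose_one A (d + 1) t d (by omega)
  have h3 : Nat.choose ((d + 1).factorial * A * t + (d + 1)) (d + 1)
      = Nat.choose ((d + 1).factorial * A * t + d) d
        + Nat.choose ((d + 1).factorial * A * t + d) (d + 1) := by
    rw [← add_assoc, Nat.choose_succ_succ]
  rw [h3] at h1
  have h4 := Nat.ModEq.add_left_cancel h2 (h1.trans (Nat.ModEq.refl (1 + 0)))
  have e : d + 1 - 1 = d := by omega
  rw [e]
  exact (Nat.modEq_zero_iff_dvd).1 h4

/-- a convergent sequence of integers has an integer limit and is eventually constant -/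
theorem int_limit {x : ℕ → ℤ} {θ : ℝ} (h : Tendsto (fun n => (x n : ℝ)) atTop (𝓝 θ)) :
    ∃ c : ℤ, θ = c := by
  have h1 : Tendsto (fun n => (x (n + 1) : ℝ) - (x n : ℝ)) atTop (𝓝 0) := by
    have := (h.comp (tendsto_add_atTop_nat 1)).sub h
    simpa using this
  have h2 := h1.eventually (Metric.ball_mem_nhds (0 : ℝ) (show (0:ℝ) < 1 by norm_num))
  obtain ⟨N, hN⟩ := eventually_atTop.1 h2
  have h3 : ∀ n, N ≤ n → x n = x N := by
    intro n hn
    induction n, hn using Nat.le_induction with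
    | base => rfl
    | succ n hn ih =>
      have := hN n hn
      rw [dist_zero_right, Real.norm_eq_abs] at this
      have h4 : |x (n + 1) - x n| < 1 := by exact_mod_cast this
      have := Int.abs_lt_one_iff.1 h4
      omega
  refine ⟨x N, tendsto_nhds_unique h ?_⟩
  refine tendsto_const_nhds.congr' ?_
  filter_upwards [eventually_ge_atTop N] with n hn
  rw [h3 n hn]

theorem theta_int (θ : ℝ) (s d : ℕ) : ∀ x : ℕ → ℤ,
    Tendsto (fun n => (x n : ℝ) - θ * (Nat.choose (n + s) d : ℝ)) atTop (𝓝 0) →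
    ∃ c : ℤ, θ = c := by
  induction d with
  | zero =>
    intro x hx
    refine int_limit (x := x) ?_
    have := hx.add_const θ
    simpa using this
  | succ d ih =>
    intro x hx
    refine ih (fun n => x (n + 1) - x n) ?_
    have := (hx.comp (tendsto_add_atTop_nat 1)).sub hx
    rw [sub_zero] at this
    refine this.congr fun n => ?_
    simp only [Function.comp]
    have e : n + 1 + s = (n + s) + 1 := by ring
    rw [e, Nat.choose_succ_succ]
    push_cast
    ring

theorem binomial_rate (ha : ∀ n, 0 < a n)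
    (hlim : Tendsto (fun n => (a (n + 1) : ℝ) / (a n : ℝ) ^ 2) atTop (𝓝 1))
    (hinf : Tendsto (fun n => (a n : ℝ)) atTop atTop) (p q : ℤ) (hq : 0 < q)
    (hsum : HasSum (fun n => (1 : ℝ) / (a n : ℝ)) ((p : ℝ) / q))
    (κ : ℝ) (hκ : κ ≠ 0) (s d : ℕ) (hd : 1 ≤ d)
    (hw : Tendsto (fun n => (P a n : ℝ) / (a n : ℝ) - κ * (Nat.choose (n + s) d : ℝ))
      atTop (𝓝 0)) : False := by
  have hpq := hpq_of hq hsum
  have hX := X_sub ha hlim hinf hsum.summable p q hq hpq
  have hq' : (0 : ℝ) < (q : ℝ) := by exact_mod_cast hq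
  have h1 : Tendsto (fun n => (X a p q n : ℝ) - (q * κ) * (Nat.choose (n + s) d : ℝ))
      atTop (𝓝 0) := by
    have := hX.add (hw.const_mul (q : ℝ))
    simp only [mul_zero, add_zero] at this
    refine this.congr fun n => ?_
    ring
  obtain ⟨c, hc⟩ := theta_int _ s d _ h1
  rw [hc] at h1
  have hc0 : c ≠ 0 := by
    rintro rfl
    simp only [Int.cast_zero] at hc
    rcases mul_eq_zero.1 hc with h | h
    · linarith
    · exact hκ h
  obtain ⟨N, hN⟩ := eventually_atTop.1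
    (h1.eventually (Metric.ball_mem_nhds (0 : ℝ) (show (0:ℝ) < 1 by norm_num)))
  have hXc : ∀ n, N ≤ n → X a p q n = c * (Nat.choose (n + s) d : ℤ) := by
    intro n hn
    have := hN n hn
    rw [dist_zero_right, Real.norm_eq_abs] at this
    have h4 : |X a p q n - c * (Nat.choose (n + s) d : ℤ)| < 1 := by exact_mod_cast this
    have := Int.abs_lt_one_iff.1 h4
    omega
  obtain ⟨k, hk⟩ := (hinf.eventually_gt_atTop ((c.natAbs : ℕ) : ℝ)).exists
  have hk' : c.natAbs < a k := by exact_mod_cast hk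
  -- choose `n`
  set t := k + N + s + 1 with ht
  have hA : 1 ≤ a k := ha k
  have hfac : 1 ≤ d.factorial := Nat.factorial_pos d
  have hbig : t ≤ d.factorial * a k * t := Nat.le_mul_of_pos_left _ (Nat.mul_pos hfac hA)
  obtain ⟨n, hn⟩ : ∃ n, n + s = d.factorial * a k * t + (d - 1) :=
    ⟨d.factorial * a k * t + (d - 1) - s, by omega⟩
  have hnN : N ≤ n := by omega
  have hkn : k < n := by omega
  have hdX : (a k : ℤ) ∣ X a p q n := by
    rw [hXc n hnN, hn]
    refine Dvd.dvd.mul_left ?_ c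
    exact_mod_cast choose_zero (a k) d t hd
  have hdP : (a k : ℤ) ∣ q * (P a n : ℤ) := by
    refine Dvd.dvd.mul_left ?_ q
    exact_mod_cast Finset.dvd_prod_of_mem a (Finset.mem_range.2 hkn)
  have hd1 := dvd_later a p q _ n hdX hdP (n + 1) (by omega)
  rw [hXc (n + 1) (by omega)] at hd1
  have e : n + 1 + s = d.factorial * a k * t + d := by omega
  rw [e] at hd1
  have hmod := choose_one (a k) d t d le_rfl
  have hcop : IsCoprime (a k : ℤ) (Nat.choose (d.factorial * a k * t + d) d : ℤ) := by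
    rw [Nat.isCoprime_iff_coprime]
    have h5 := hmod.gcd_eq
    rw [Nat.gcd_comm] at h5
    unfold Nat.Coprime
    rw [Nat.gcd_comm]
    rw [Nat.gcd_comm] at h5
    rw [h5]; simp
  have hdc : (a k : ℤ) ∣ c := hcop.dvd_of_dvd_mul_right hd1
  have h6 : a k ∣ c.natAbs := Int.natCast_dvd.1 hdc
  have h7 := Nat.le_of_dvd (Int.natAbs_pos.2 hc0) h6
  omega

theorem rate_to_w (w : ℕ → ℝ) (hw0 : ∀ n, 0 < w n) (ε : ℕ → ℝ)
    (hrec : ∀ n, w (n + 1) = w n * (1 + ε n)) (e : ℕ)
    (h : Tendsto (fun n : ℕ => (ε n - ((e : ℝ) + 1) / (n : ℝ)) * (n : ℝ) ^ (e + 2)) atTop (𝓝 0)) :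
    ∃ κ : ℝ, Tendsto (fun n => w n - κ * (Nat.choose (n + e) (e + 1) : ℝ)) atTop (𝓝 0) := by
  set g : ℕ → ℝ := fun n => 1 / (n : ℝ) ^ (e + 1) with hg
  have hgd : ∀ n : ℕ, 1 ≤ n → 1 / (2 ^ (e + 1) * (n : ℝ) ^ (e + 2)) ≤ g n - g (n + 1) := by
    intro n hn
    have hn' : (1 : ℝ) ≤ (n : ℝ) := by exact_mod_cast hn
    have h0 : (0 : ℝ) < (n : ℝ) := by linarith
    have h1 : (n : ℝ) ^ (e + 1) + (n : ℝ) ^ e ≤ ((n : ℝ) + 1) ^ (e + 1) := by
      have : (n : ℝ) ^ e ≤ ((n : ℝ) + 1) ^ e := pow_le_pow_left₀ h0.le (by linarith) e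
      rw [pow_succ, pow_succ]
      nlinarith
    have h2 : ((n : ℝ) + 1) ^ (e + 1) ≤ 2 ^ (e + 1) * (n : ℝ) ^ (e + 1) := by
      rw [← mul_pow]
      exact pow_le_pow_left₀ (by linarith) (by linarith) _
    have h3 : g n - g (n + 1) = (((n : ℝ) + 1) ^ (e + 1) - (n : ℝ) ^ (e + 1)) /
        ((n : ℝ) ^ (e + 1) * ((n : ℝ) + 1) ^ (e + 1)) := by
      simp only [hg]; push_cast; field_simp
    rw [h3, div_le_div_iff₀ (by positivity) (by positivity)]
    have h4 : (n : ℝ) ^ (e + 1) * ((n : ℝ) + 1) ^ (e + 1)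
        ≤ (n : ℝ) ^ (e + 1) * (2 ^ (e + 1) * (n : ℝ) ^ (e + 1)) :=
      mul_le_mul_of_nonneg_left h2 (by positivity)
    have h5 : (n : ℝ) ^ e * (2 ^ (e + 1) * (n : ℝ) ^ (e + 2))
        ≤ (((n : ℝ) + 1) ^ (e + 1) - (n : ℝ) ^ (e + 1)) * (2 ^ (e + 1) * (n : ℝ) ^ (e + 2)) :=
      mul_le_mul_of_nonneg_right (by linarith) (by positivity)
    have h6 : (n : ℝ) ^ e * (2 ^ (e + 1) * (n : ℝ) ^ (e + 2))
        = (n : ℝ) ^ (e + 1) * (2 ^ (e + 1) * (n : ℝ) ^ (e + 1)) := by ring
    linarith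
  have hgpos : ∀ n, 0 ≤ g n := fun n => by simp only [hg]; positivity
  have hg0 : Tendsto g atTop (𝓝 0) := by
    have h1 : Tendsto (fun n : ℕ => (n : ℝ) ^ (e + 1)) atTop atTop :=
      (tendsto_pow_atTop (Nat.succ_ne_zero e)).comp tendsto_natCast_atTop_atTop
    have := h1.const_div_atTop 1
    exact this
  have hCpos : ∀ n : ℕ, 1 ≤ n → (0 : ℝ) < (Nat.choose (n + e) (e + 1) : ℝ) := by
    intro n hn
    exact_mod_cast Nat.choose_pos (by omega)
  have hC : ∀ n : ℕ, (Nat.choose (n + 1 + e) (e + 1) : ℝ) * (n : ℝ)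
      = (Nat.choose (n + e) (e + 1) : ℝ) * ((n : ℝ) + e + 1) := by
    intro n
    have h1 := Nat.add_one_mul_choose_eq (n + e) e
    have h2 := Nat.choose_succ_right_eq (n + e) e
    rw [Nat.add_sub_cancel] at h2
    have h3 : (n + 1 + e) = (n + e + 1) := by ring
    rw [h3]
    have h4 : (Nat.choose (n + e + 1) (e + 1) * n) * (e + 1)
        = (Nat.choose (n + e) (e + 1) * (n + e + 1)) * (e + 1) := by
      calc (Nat.choose (n + e + 1) (e + 1) * n) * (e + 1)
          = (Nat.choose (n + e + 1) (e + 1) * (e + 1)) * n := by ring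
        _ = ((n + e + 1) * Nat.choose (n + e) e) * n := by rw [h1]
        _ = (Nat.choose (n + e) e * n) * (n + e + 1) := by ring
        _ = (Nat.choose (n + e) (e + 1) * (e + 1)) * (n + e + 1) := by rw [h2]
        _ = _ := by ring
    have h5 := Nat.eq_of_mul_eq_mul_right (Nat.succ_pos e) h4
    exact_mod_cast h5
  set v : ℕ → ℝ := fun n => w n / (Nat.choose (n + e) (e + 1) : ℝ) with hv
  have hvpos : ∀ n, 1 ≤ n → 0 < v n := fun n hn => div_pos (hw0 n) (hCpos n hn)
  have hvrec : ∀ n : ℕ, 1 ≤ n → v (n + 1) - v n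
      = v n * ((ε n - ((e : ℝ) + 1) / (n : ℝ)) * ((n : ℝ) / ((n : ℝ) + e + 1))) := by
    intro n hn
    have h0 : (0 : ℝ) < (n : ℝ) := by exact_mod_cast hn
    have h1 := hCpos n hn
    have h2 := hCpos (n + 1) (by omega)
    have h3 : (Nat.choose (n + 1 + e) (e + 1) : ℝ)
        = (Nat.choose (n + e) (e + 1) : ℝ) * ((n : ℝ) + e + 1) / (n : ℝ) := by
      rw [eq_div_iff h0.ne']; exact hC n
    have h4 : (0 : ℝ) < (n : ℝ) + e + 1 := by positivity
    simp only [hv]
    rw [hrec n, h3]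
    field_simp
    ring
  have hstep : ∀ δ : ℝ, 0 < δ → ∀ᶠ n in atTop, 1 ≤ n ∧
      |v (n + 1) - v n| ≤ v n * (δ * (g n - g (n + 1))) := by
    intro δ hδ
    have h1 := h.eventually (Metric.ball_mem_nhds (0 : ℝ) (show 0 < δ / 2 ^ (e + 1) by positivity))
    filter_upwards [h1, eventually_ge_atTop 1] with n h1 hn
    refine ⟨hn, ?_⟩
    have h0 : (0 : ℝ) < (n : ℝ) := by exact_mod_cast hn
    rw [dist_zero_right, Real.norm_eq_abs, abs_mul, abs_of_pos (by positivity : (0:ℝ) < (n : ℝ) ^ (e + 2))] at h1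
    rw [hvrec n hn, abs_mul, abs_of_pos (hvpos n hn)]
    refine mul_le_mul_of_nonneg_left ?_ (hvpos n hn).le
    rw [abs_mul]
    have h2 : |(n : ℝ) / ((n : ℝ) + e + 1)| ≤ 1 := by
      rw [abs_of_pos (by positivity), div_le_one (by positivity)]
      have : (0 : ℝ) ≤ (e : ℝ) := Nat.cast_nonneg e
      linarith
    have h3 : |ε n - ((e : ℝ) + 1) / (n : ℝ)| ≤ δ * (1 / (2 ^ (e + 1) * (n : ℝ) ^ (e + 2))) := by
      have : |ε n - ((e : ℝ) + 1) / (n : ℝ)| ≤ (δ / 2 ^ (e + 1)) / (n : ℝ) ^ (e + 2) := by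
        rw [le_div_iff₀ (by positivity)]; exact h1.le
      calc _ ≤ _ := this
        _ = _ := by field_simp
    have h4 := hgd n hn
    calc |ε n - ((e : ℝ) + 1) / (n : ℝ)| * |(n : ℝ) / ((n : ℝ) + e + 1)|
        ≤ |ε n - ((e : ℝ) + 1) / (n : ℝ)| * 1 := mul_le_mul_of_nonneg_left h2 (abs_nonneg _)
      _ ≤ δ * (1 / (2 ^ (e + 1) * (n : ℝ) ^ (e + 2))) := by linarith
      _ ≤ δ * (g n - g (n + 1)) := mul_le_mul_of_nonneg_left h4 hδ.le
  -- `v` is bounded
  obtain ⟨N, hN⟩ := eventually_atTop.1 (hstep 1 one_pos)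
  have hNp : 1 ≤ N := (hN N le_rfl).1
  have hV : ∀ k, v (N + k) ≤ v N * Real.exp (g N - g (N + k)) := by
    intro k
    induction k with
    | zero => simp
    | succ k ih =>
      have h1 := (abs_le.1 (hN (N + k) (by omega)).2).2
      have h2 : v (N + k + 1) ≤ v (N + k) * (1 + (g (N + k) - g (N + k + 1))) := by linarith
      have h3 : 1 + (g (N + k) - g (N + k + 1)) ≤ Real.exp (g (N + k) - g (N + k + 1)) := by
        rw [add_comm]; exact Real.add_one_le_exp _
      have h4 := hvpos (N + k) (by omega)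
      calc v (N + (k + 1)) ≤ v (N + k) * (1 + (g (N + k) - g (N + k + 1))) := h2
        _ ≤ v (N + k) * Real.exp (g (N + k) - g (N + k + 1)) :=
            mul_le_mul_of_nonneg_left h3 h4.le
        _ ≤ (v N * Real.exp (g N - g (N + k))) * Real.exp (g (N + k) - g (N + k + 1)) :=
            mul_le_mul_of_nonneg_right ih (Real.exp_pos _).le
        _ = v N * Real.exp (g N - g (N + (k + 1))) := by
            rw [mul_assoc, ← Real.exp_add]; congr 2; ring_nf
  set V : ℝ := v N * Real.exp (g N) with hVdef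
  have hVpos : 0 < V := mul_pos (hvpos N hNp) (Real.exp_pos _)
  have hVb : ∀ n, N ≤ n → v n ≤ V := by
    intro n hn
    obtain ⟨k, rfl⟩ := Nat.exists_eq_add_of_le hn
    refine (hV k).trans (mul_le_mul_of_nonneg_left ?_ (hvpos N hNp).le)
    exact Real.exp_le_exp.2 (by linarith [hgpos (N + k)])
  have hdiff : ∀ δ : ℝ, 0 < δ → ∃ M, N ≤ M ∧ ∀ n, M ≤ n → ∀ k, |v (n + k) - v n| ≤ δ * V * g n := by
    intro δ hδ
    obtain ⟨M, hM⟩ := eventually_atTop.1 (hstep δ hδ)
    refine ⟨max M N, le_max_right _ _, fun n hn k => ?_⟩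
    have hnM : M ≤ n := (le_max_left _ _).trans hn
    have hnN : N ≤ n := (le_max_right _ _).trans hn
    have h1 : |v (n + k) - v n| ≤ δ * V * (g n - g (n + k)) := by
      induction k with
      | zero => simp
      | succ k ih =>
        have h2 := (hM (n + k) (by omega)).2
        have h3 := hVb (n + k) (by omega)
        have h5 : 0 ≤ g (n + k) - g (n + k + 1) :=
          le_trans (by positivity) (hgd (n + k) (by omega))
        have h4 : v (n + k) * (δ * (g (n + k) - g (n + k + 1)))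
            ≤ V * (δ * (g (n + k) - g (n + k + 1))) :=
          mul_le_mul_of_nonneg_right h3 (mul_nonneg hδ.le h5)
        have h6 := abs_sub_le (v (n + k + 1)) (v (n + k)) (v n)
        rw [← add_assoc]
        nlinarith
    have h2 := hgpos (n + k)
    have h3 : 0 ≤ δ * V := by positivity
    nlinarith
  have hcau : CauchySeq v := by
    rw [Metric.cauchySeq_iff']
    intro r hr
    obtain ⟨M, hMN, hM⟩ := hdiff 1 one_pos
    obtain ⟨M', hM'⟩ := eventually_atTop.1
      (hg0.eventually (gt_mem_nhds (show (0:ℝ) < r / V by positivity)))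
    refine ⟨max M M', fun n hn => ?_⟩
    obtain ⟨k, rfl⟩ := Nat.exists_eq_add_of_le hn
    rw [Real.dist_eq]
    have h1 := hM (max M M') (le_max_left _ _) k
    have h2 := hM' (max M M') (le_max_right _ _)
    rw [lt_div_iff₀ hVpos] at h2
    linarith
  obtain ⟨κ, hκ⟩ := cauchySeq_tendsto_of_complete hcau
  refine ⟨κ, ?_⟩
  rw [Metric.tendsto_atTop]
  intro r hr
  set Q : ℝ := (1 + (e : ℝ)) ^ (e + 1) with hQ
  have hQpos : 0 < Q := by positivity
  obtain ⟨M, hMN, hM⟩ := hdiff (r / (2 * (Q * V))) (by positivity)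
  refine ⟨M, fun n hn => ?_⟩
  have hn1 : 1 ≤ n := hNp.trans (hMN.trans hn)
  have h0 : (1 : ℝ) ≤ (n : ℝ) := by exact_mod_cast hn1
  have h1 : |κ - v n| ≤ r / (2 * (Q * V)) * V * g n := by
    have ht : Tendsto (fun k => |v (n + k) - v n|) atTop (𝓝 |κ - v n|) := by
      have h2 : Tendsto (fun k => v (n + k)) atTop (𝓝 κ) := by
        have := hκ.comp (tendsto_add_atTop_nat n)
        refine this.congr fun k => ?_
        simp [add_comm]
      exact (h2.sub_const _).abs
    exact le_of_tendsto' ht (hM n hn)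
  have hCp := hCpos n hn1
  have h2 : w n - κ * (Nat.choose (n + e) (e + 1) : ℝ)
      = -((κ - v n) * (Nat.choose (n + e) (e + 1) : ℝ)) := by
    simp only [hv]; field_simp; ring
  have hCle : (Nat.choose (n + e) (e + 1) : ℝ) ≤ Q * (n : ℝ) ^ (e + 1) := by
    have h3 : (Nat.choose (n + e) (e + 1) : ℝ) ≤ ((n + e : ℕ) : ℝ) ^ (e + 1) := by
      exact_mod_cast Nat.choose_le_pow (n + e) (e + 1)
    refine h3.trans ?_
    rw [hQ, ← mul_pow]
    refine pow_le_pow_left₀ (by positivity) ?_ _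
    push_cast
    have : (0 : ℝ) ≤ (e : ℝ) := Nat.cast_nonneg e
    nlinarith
  rw [dist_zero_right, Real.norm_eq_abs, h2, abs_neg, abs_mul, abs_of_pos hCp]
  have hgn : g n * (n : ℝ) ^ (e + 1) = 1 := by
    simp only [hg]; field_simp
  calc |κ - v n| * (Nat.choose (n + e) (e + 1) : ℝ)
      ≤ (r / (2 * (Q * V)) * V * g n) * (Q * (n : ℝ) ^ (e + 1)) :=
        mul_le_mul h1 hCle hCp.le (le_trans (abs_nonneg _) h1)
    _ = (r / 2) * (g n * (n : ℝ) ^ (e + 1)) := by field_simp
    _ = r / 2 := by rw [hgn, mul_one]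
    _ < r := by linarith

theorem w_not_zero (ha : ∀ n, 0 < a n)
    (hlim : Tendsto (fun n => (a (n + 1) : ℝ) / (a n : ℝ) ^ 2) atTop (𝓝 1))
    (hinf : Tendsto (fun n => (a n : ℝ)) atTop atTop) (p q : ℤ) (hq : 0 < q)
    (hsum : HasSum (fun n => (1 : ℝ) / (a n : ℝ)) ((p : ℝ) / q))
    (hw : Tendsto (fun n => (P a n : ℝ) / (a n : ℝ)) atTop (𝓝 0)) : False := by
  have hpq := hpq_of hq hsum
  have hX := X_sub ha hlim hinf hsum.summable p q hq hpq
  have h1 : Tendsto (fun n => (X a p q n : ℝ)) atTop (𝓝 0) := by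
    have := hX.add (hw.const_mul (q : ℝ))
    simp only [mul_zero, add_zero] at this
    refine this.congr fun n => ?_
    ring
  have h2 := ge_of_tendsto' h1 (fun n => (by
    exact_mod_cast X_pos ha hsum.summable p q hq hpq n : (1 : ℝ) ≤ (X a p q n : ℝ)))
  linarith

/-- `a_n² / a_{n+1} = 1 + d/n + o(n^{-d-1})` forces irrationality -/
theorem rate_irrational (ha : ∀ n, 0 < a n)
    (hinf : Tendsto (fun n => (a n : ℝ)) atTop atTop) (d : ℕ) (hd : 1 ≤ d)
    (h : Tendsto (fun n : ℕ => ((a n : ℝ) ^ 2 / (a (n + 1) : ℝ) - 1 - (d : ℝ) / (n : ℝ)) *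
      (n : ℝ) ^ (d + 1)) atTop (𝓝 0)) :
    Irrational (∑' n, (1 : ℝ) / (a n : ℝ)) := by
  have h1 : Tendsto (fun n : ℕ => ((a n : ℝ) ^ 2 / (a (n + 1) : ℝ) - 1 - (d : ℝ) / (n : ℝ)))
      atTop (𝓝 0) := by
    refine squeeze_zero_norm' ?_ (by simpa using h.norm)
    filter_upwards [eventually_ge_atTop 1] with n hn
    have hn' : (1 : ℝ) ≤ (n : ℝ) := by exact_mod_cast hn
    rw [Real.norm_eq_abs]
    exact le_mul_of_one_le_right (abs_nonneg _) (one_le_pow₀ hn')
  have hinv : Tendsto (fun n => (a n : ℝ) ^ 2 / (a (n + 1) : ℝ)) atTop (𝓝 1) := by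
    have h2 : Tendsto (fun n : ℕ => (d : ℝ) / (n : ℝ)) atTop (𝓝 0) :=
      tendsto_const_div_atTop_nhds_zero_nat _
    have h3 := (h1.add h2).add_const 1
    simp only [zero_add, add_zero] at h3
    refine h3.congr fun n => ?_
    ring
  have hlim : Tendsto (fun n => (a (n + 1) : ℝ) / (a n : ℝ) ^ 2) atTop (𝓝 1) := by
    have := hinv.inv₀ one_ne_zero
    simpa [inv_div] using this
  by_contra hirr
  obtain ⟨p, q, hq, hsum⟩ := exists_pq (summable_of ha hlim hinf) hirr
  obtain ⟨e, rfl⟩ : ∃ e, d = e + 1 := ⟨d - 1, by omega⟩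
  have hA : ∀ n, (0 : ℝ) < (a n : ℝ) := fun n => by exact_mod_cast ha n
  have hPp : ∀ n, (0 : ℝ) < (P a n : ℝ) := fun n => by exact_mod_cast P_pos ha n
  obtain ⟨κ, hκ⟩ := rate_to_w (fun n => (P a n : ℝ) / (a n : ℝ))
    (fun n => div_pos (hPp n) (hA n)) (fun n => (a n : ℝ) ^ 2 / (a (n + 1) : ℝ) - 1)
    (fun n => by
      have h1 := hA n
      have h2 := hA (n + 1)
      rw [P_succ]; push_cast; field_simp; ring) e (by
      refine h.congr fun n => ?_
      push_cast
      ring)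
  rcases eq_or_ne κ 0 with rfl | hκ0
  · exact w_not_zero ha hlim hinf p q hq hsum (by simpa using hκ)
  · exact binomial_rate ha hlim hinf p q hq hsum κ hκ0 e (e + 1) (by omega) hκ


end Pool.Agent.Helper580.Rec
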