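import Mathlib

set_option autoImplicit false
open Filter Topology

namespace Pool.Agent.Helper580.Rec

/-- `P_n = a_0 ⋯ a_{n-1}` -/
def P (a : ℕ → ℕ) (n : ℕ) : ℕ := ∏ k ∈ Finset.range n, a k

/-- tail `∑_{k ≥ n} 1/a_k` -/
noncomputable def r (a : ℕ → ℕ) (n : ℕ) : ℝ := ∑' k, (1 : ℝ) / (a (n + k) : ℝ)

theorem P_succ (a : ℕ → ℕ) (n : ℕ) : P a (n + 1) = P a n * a n := by
  simp [P, Finset.prod_range_succ]

theorem P_pos {a : ℕ → ℕ} (ha : ∀ n, 0 < a n) (n : ℕ) : 0 < P a n :=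
  Finset.prod_pos fun k _ => ha k

theorem P_dvd (a : ℕ → ℕ) {n m : ℕ} (h : n ≤ m) : P a n ∣ P a m := by
  induction m, h using Nat.le_induction with
  | base => exact dvd_rfl
  | succ m _ ih => rw [P_succ]; exact ih.mul_right _

variable {a : ℕ → ℕ}

theorem r_succ (hs : Summable fun n => (1 : ℝ) / (a n : ℝ)) (n : ℕ) :
    r a n = 1 / (a n : ℝ) + r a (n + 1) := by
  unfold r
  have h1 : Summable fun k => (1 : ℝ) / (a (n + k) : ℝ) := by
    have := (summable_nat_add_iff n).2 hs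
    simpa [add_comm] using this
  rw [h1.tsum_eq_zero_add]
  simp only [add_zero]
  congr 1
  refine tsum_congr fun k => ?_
  rw [show n + (k + 1) = n + 1 + k by ring]

/-- growth: eventually `a (n+1) ≥ a n ^ 2 / 2` -/
theorem growth (hlim : Tendsto (fun n => (a (n + 1) : ℝ) / (a n : ℝ) ^ 2) atTop (𝓝 1))
    (ha : ∀ n, 0 < a n) : ∀ᶠ n in atTop, (a n : ℝ) ^ 2 / 2 ≤ (a (n + 1) : ℝ) ∧
      (a (n + 1) : ℝ) ≤ 2 * (a n : ℝ) ^ 2 := by
  have h1 := hlim.eventually (lt_mem_nhds (show (1 / 2 : ℝ) < 1 by norm_num))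
  have h2 := hlim.eventually (gt_mem_nhds (show (1 : ℝ) < 2 by norm_num))
  filter_upwards [h1, h2] with n h1 h2
  have hp : (0 : ℝ) < (a n : ℝ) ^ 2 := by have := ha n; positivity
  rw [lt_div_iff₀ hp] at h1
  rw [div_lt_iff₀ hp] at h2
  constructor <;> linarith

theorem summ (ha : ∀ n, 0 < a n)
    (hlim : Tendsto (fun n => (a (n + 1) : ℝ) / (a n : ℝ) ^ 2) atTop (𝓝 1))
    (hinf : Tendsto (fun n => (a n : ℝ)) atTop atTop) :
    ∀ᶠ n in atTop, Summable (fun n => (1 : ℝ) / (a n : ℝ)) ∧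
      r a n ≤ 2 / (a n : ℝ) ∧ 4 ≤ (a n : ℝ) := by
  have h := (growth hlim ha).and (hinf.eventually_ge_atTop 4)
  rw [eventually_atTop] at h ⊢
  obtain ⟨N, hN⟩ := h
  refine ⟨N, fun n hn => ?_⟩
  have hdouble : ∀ k, (2 : ℝ) ^ k * (a n : ℝ) ≤ (a (n + k) : ℝ) := by
    intro k
    induction k with
    | zero => simp
    | succ k ih =>
      have h1 := (hN (n + k) (by omega)).1.1
      have h4 := (hN (n + k) (by omega)).2
      have : (a (n + k + 1) : ℝ) ≥ 2 * (a (n + k) : ℝ) := by nlinarith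
      rw [pow_succ, ← add_assoc]
      calc (2:ℝ) ^ k * 2 * (a n : ℝ) = 2 * (2 ^ k * (a n : ℝ)) := by ring
        _ ≤ 2 * (a (n + k) : ℝ) := by linarith
        _ ≤ _ := this
  have hpos : (0 : ℝ) < (a n : ℝ) := by exact_mod_cast ha n
  have hle : ∀ k, (1 : ℝ) / (a (n + k) : ℝ) ≤ (1 / (a n : ℝ)) * (1 / 2) ^ k := by
    intro k
    have hp : (0 : ℝ) < (2 : ℝ) ^ k * (a n : ℝ) := by positivity
    calc (1 : ℝ) / (a (n + k) : ℝ) ≤ 1 / ((2 : ℝ) ^ k * (a n : ℝ)) :=
          one_div_le_one_div_of_le hp (hdouble k)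
      _ = (1 / (a n : ℝ)) * (1 / 2) ^ k := by rw [one_div_pow]; field_simp
  have hgeo : Summable fun k : ℕ => (1 / (a n : ℝ)) * (1 / 2 : ℝ) ^ k :=
    (summable_geometric_of_lt_one (by norm_num) (by norm_num)).mul_left _
  have hs1 : Summable fun k => (1 : ℝ) / (a (n + k) : ℝ) :=
    Summable.of_nonneg_of_le (fun k => by positivity) hle hgeo
  have hs : Summable fun n => (1 : ℝ) / (a n : ℝ) := by
    have : Summable fun k => (1 : ℝ) / (a (k + n) : ℝ) := by simpa [add_comm] using hs1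
    exact (summable_nat_add_iff (f := fun n => (1 : ℝ) / (a n : ℝ)) n).1 this
  refine ⟨hs, ?_, (hN n hn).2⟩
  calc r a n = ∑' k, (1 : ℝ) / (a (n + k) : ℝ) := rfl
    _ ≤ ∑' k : ℕ, (1 / (a n : ℝ)) * (1 / 2 : ℝ) ^ k := hs1.tsum_le_tsum hle hgeo
    _ = 2 / (a n : ℝ) := by
        rw [tsum_mul_left, tsum_geometric_of_lt_one (by norm_num) (by norm_num)]; ring

theorem r_pos (ha : ∀ n, 0 < a n) (hs : Summable fun n => (1 : ℝ) / (a n : ℝ)) (n : ℕ) :
    0 < r a n := by
  have h1 : Summable fun k => (1 : ℝ) / (a (n + k) : ℝ) := by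
    have := (summable_nat_add_iff n).2 hs
    simpa [add_comm] using this
  refine h1.tsum_pos (fun k => by positivity) 0 ?_
  have := ha (n + 0)
  positivity

/-- eventually `1 ≤ a_n r_n ≤ 1 + 4 / a_n` -/
theorem ar_bound (ha : ∀ n, 0 < a n)
    (hlim : Tendsto (fun n => (a (n + 1) : ℝ) / (a n : ℝ) ^ 2) atTop (𝓝 1))
    (hinf : Tendsto (fun n => (a n : ℝ)) atTop atTop) :
    ∀ᶠ n in atTop, 1 ≤ (a n : ℝ) * r a n ∧ (a n : ℝ) * r a n ≤ 1 + 4 / (a n : ℝ) := by
  have h := summ ha hlim hinf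
  have h' := (tendsto_add_atTop_nat 1).eventually h
  filter_upwards [h, h', growth hlim ha] with n h1 h2 h3
  have hp : (0 : ℝ) < (a n : ℝ) := by exact_mod_cast ha n
  have hp1 : (0 : ℝ) < (a (n + 1) : ℝ) := by exact_mod_cast ha (n + 1)
  have hr := r_succ h1.1 n
  have hr1 := r_pos ha h1.1 (n + 1)
  have hmul : (a n : ℝ) * r a n = 1 + (a n : ℝ) * r a (n + 1) := by
    rw [hr]; field_simp
  refine ⟨by rw [hmul]; nlinarith, ?_⟩
  rw [hmul]
  have h4 : (a n : ℝ) * r a (n + 1) ≤ (a n : ℝ) * (2 / (a (n + 1) : ℝ)) :=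
    mul_le_mul_of_nonneg_left h2.2.1 hp.le
  have h5 : (a n : ℝ) * (2 / (a (n + 1) : ℝ)) ≤ 4 / (a n : ℝ) := by
    rw [mul_div_assoc', div_le_div_iff₀ hp1 hp]
    nlinarith [h3.1]
  linarith

theorem ar_tendsto (ha : ∀ n, 0 < a n)
    (hlim : Tendsto (fun n => (a (n + 1) : ℝ) / (a n : ℝ) ^ 2) atTop (𝓝 1))
    (hinf : Tendsto (fun n => (a n : ℝ)) atTop atTop) :
    Tendsto (fun n => (a n : ℝ) * r a n) atTop (𝓝 1) := by
  have hb := ar_bound ha hlim hinf
  have h4 : Tendsto (fun n => 1 + 4 / (a n : ℝ)) atTop (𝓝 1) := by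
    have := (hinf.const_div_atTop 4).const_add 1
    simpa using this
  exact tendsto_of_tendsto_of_tendsto_of_le_of_le' tendsto_const_nhds h4
    (hb.mono fun n h => h.1) (hb.mono fun n h => h.2)

/-- the integers `X_n = q P_n r_n` -/
def X (a : ℕ → ℕ) (p q : ℤ) : ℕ → ℤ
  | 0 => p
  | n + 1 => (a n : ℤ) * X a p q n - q * (P a n : ℤ)

theorem X_eq (ha : ∀ n, 0 < a n) (hs : Summable fun n => (1 : ℝ) / (a n : ℝ)) (p q : ℤ)
    (hpq : (q : ℝ) * r a 0 = p) (n : ℕ) :
    (X a p q n : ℝ) = (q : ℝ) * (P a n : ℝ) * r a n := by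
  induction n with
  | zero => simp [X, P, hpq]
  | succ n ih =>
    have hp : (0 : ℝ) < (a n : ℝ) := by exact_mod_cast ha n
    rw [X, P_succ]
    push_cast
    rw [ih, r_succ hs n]
    field_simp
    ring

/-- if two consecutive `X` agree, then the recursion holds from there on -/
theorem sylvester_of_eq (p q : ℤ)
    (hXpos : ∀ n, 0 < X a p q n) (N : ℕ) (hN : ∀ m, N ≤ m → |X a p q (m + 1) - X a p q m| < X a p q m)
    (n : ℕ) (hn : N ≤ n) (heq : X a p q (n + 1) = X a p q n) :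
    ∀ m, n ≤ m → X a p q m = X a p q n ∧ a (m + 1) = a m ^ 2 - a m + 1 := by
  have hrec : ∀ m, X a p q (m + 1) = (a m : ℤ) * X a p q m - q * (P a m : ℤ) := fun m => rfl
  have hdvd : X a p q n ∣ q * (P a n : ℤ) := by
    have : q * (P a n : ℤ) = ((a n : ℤ) - 1) * X a p q n := by
      have := hrec n; rw [heq] at this; linarith
    rw [this]; exact Dvd.intro_left _ rfl
  have hconst : ∀ m, n ≤ m → X a p q m = X a p q n := by
    intro m hm
    induction m, hm using Nat.le_induction with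
    | base => rfl
    | succ m hm ih =>
      have h1 : X a p q n ∣ q * (P a m : ℤ) := by
        refine hdvd.trans (mul_dvd_mul_left q ?_)
        exact_mod_cast P_dvd a hm
      have h2 : X a p q n ∣ X a p q (m + 1) - X a p q m := by
        rw [hrec m, ih]
        have : (a m : ℤ) * X a p q n - q * (P a m : ℤ) - X a p q n
          = ((a m : ℤ) - 1) * X a p q n - q * (P a m : ℤ) := by ring
        rw [this]
        exact dvd_sub (Dvd.intro_left _ rfl) h1
      have h3 := hN m (hn.trans hm)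
      rw [ih] at h3 h2
      have := Int.eq_zero_of_abs_lt_dvd h2 h3
      rw [← ih]; linarith
  intro m hm
  refine ⟨hconst m hm, ?_⟩
  have e1 := hrec m
  have e2 := hrec (m + 1)
  rw [hconst m hm, hconst (m + 1) (by omega)] at e1
  rw [hconst (m + 1) (by omega), hconst (m + 2) (by omega), P_succ] at e2
  push_cast at e2
  have hx := hXpos n
  have e3 : q * (P a m : ℤ) = ((a m : ℤ) - 1) * X a p q n := by linarith
  have e4 : ((a (m + 1) : ℤ) - 1) * X a p q n = ((a m : ℤ) - 1) * (a m : ℤ) * X a p q n := by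
    have : q * ((P a m : ℤ) * (a m : ℤ)) = ((a m : ℤ) - 1) * X a p q n * (a m : ℤ) := by
      rw [← mul_assoc, e3]
    linarith
  have e5 : (a (m + 1) : ℤ) - 1 = ((a m : ℤ) - 1) * (a m : ℤ) := mul_right_cancel₀ hx.ne' e4
  have h1 : a m ≤ a m ^ 2 := Nat.le_self_pow (by norm_num) _
  zify [h1]
  linarith [e5, sq ((a m : ℤ))]

/-- Cook's quantity `D_n = (P_n / a_n) (a_n ^ 2 / a_{n+1} - 1)` -/
noncomputable def D (a : ℕ → ℕ) (n : ℕ) : ℝ :=
  (P a n : ℝ) / (a n : ℝ) * ((a n : ℝ) ^ 2 / (a (n + 1) : ℝ) - 1)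

theorem inv_lim
    (hlim : Tendsto (fun n => (a (n + 1) : ℝ) / (a n : ℝ) ^ 2) atTop (𝓝 1)) :
    Tendsto (fun n => (a n : ℝ) ^ 2 / (a (n + 1) : ℝ)) atTop (𝓝 1) := by
  have := hlim.inv₀ one_ne_zero
  simpa [inv_div] using this

theorem z_tendsto (ha : ∀ n, 0 < a n)
    (hlim : Tendsto (fun n => (a (n + 1) : ℝ) / (a n : ℝ) ^ 2) atTop (𝓝 1))
    (hinf : Tendsto (fun n => (a n : ℝ)) atTop atTop) :
    Tendsto (fun n => (P a n : ℝ) / (a n : ℝ) ^ 2) atTop (𝓝 0) := by
  have h := (growth hlim ha).and (hinf.eventually_ge_atTop 8)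
  rw [eventually_atTop] at h
  obtain ⟨N, hN⟩ := h
  have hP : ∀ n, (0 : ℝ) < (P a n : ℝ) := fun n => by exact_mod_cast P_pos ha n
  have hA : ∀ n, (0 : ℝ) < (a n : ℝ) := fun n => by exact_mod_cast ha n
  have hstep : ∀ k, (P a (N + k) : ℝ) / (a (N + k) : ℝ) ^ 2
      ≤ (P a N : ℝ) / (a N : ℝ) ^ 2 * (1 / 2) ^ k := by
    intro k
    induction k with
    | zero => simp
    | succ k ih =>
      have h1 := (hN (N + k) (by omega)).1.1
      have h8 := (hN (N + k) (by omega)).2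
      have hp := hA (N + k)
      have hp1 := hA (N + k + 1)
      have hPk := hP (N + k)
      rw [← add_assoc, P_succ, pow_succ (1 / 2 : ℝ) k]
      push_cast
      have hsq : (a (N + k) : ℝ) ^ 4 / 4 ≤ (a (N + k + 1) : ℝ) ^ 2 := by
        have := mul_self_le_mul_self (by positivity) h1
        nlinarith
      have hkey : (P a (N + k) : ℝ) * (a (N + k) : ℝ) / (a (N + k + 1) : ℝ) ^ 2
          ≤ (P a (N + k) : ℝ) / (a (N + k) : ℝ) ^ 2 * (1 / 2) := by
        rw [div_mul_eq_mul_div, div_le_div_iff₀ (by positivity) (by positivity)]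
        have h3 : (a (N + k) : ℝ) * (a (N + k) : ℝ) ^ 2 ≤ (1 / 2) * (a (N + k + 1) : ℝ) ^ 2 := by
          have : (a (N + k) : ℝ) ^ 3 * 8 ≤ (a (N + k) : ℝ) ^ 4 := by
            have := mul_le_mul_of_nonneg_left h8 (show 0 ≤ (a (N + k) : ℝ) ^ 3 by positivity)
            nlinarith
          nlinarith
        nlinarith
      calc _ ≤ _ := hkey
        _ ≤ _ := by nlinarith
  have hpow : Tendsto (fun k : ℕ => (P a N : ℝ) / (a N : ℝ) ^ 2 * (1 / 2 : ℝ) ^ k) atTop (𝓝 0) := by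
    have := (tendsto_pow_atTop_nhds_zero_of_lt_one (show (0:ℝ) ≤ 1 / 2 by norm_num)
      (by norm_num)).const_mul ((P a N : ℝ) / (a N : ℝ) ^ 2)
    simpa using this
  have h1 : Tendsto (fun k => (P a (N + k) : ℝ) / (a (N + k) : ℝ) ^ 2) atTop (𝓝 0) :=
    tendsto_of_tendsto_of_tendsto_of_le_of_le tendsto_const_nhds hpow
      (fun k => by have := hP (N + k); positivity) hstep
  have h2 : Tendsto (fun k => (P a (k + N) : ℝ) / (a (k + N) : ℝ) ^ 2) atTop (𝓝 0) := by
    simpa [add_comm] using h1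
  exact (tendsto_add_atTop_iff_nat (f := fun n => (P a n : ℝ) / (a n : ℝ) ^ 2) N).1 h2

theorem X_pos (ha : ∀ n, 0 < a n) (hs : Summable fun n => (1 : ℝ) / (a n : ℝ)) (p q : ℤ)
    (hq : 0 < q) (hpq : (q : ℝ) * r a 0 = p) (n : ℕ) : 0 < X a p q n := by
  have h := X_eq ha hs p q hpq n
  have h1 := r_pos ha hs n
  have h2 : (0 : ℝ) < (P a n : ℝ) := by exact_mod_cast P_pos ha n
  have h3 : (0 : ℝ) < (q : ℝ) := by exact_mod_cast hq
  have : (0 : ℝ) < (X a p q n : ℝ) := by rw [h]; positivity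
  exact_mod_cast this

theorem X_close (ha : ∀ n, 0 < a n)
    (hlim : Tendsto (fun n => (a (n + 1) : ℝ) / (a n : ℝ) ^ 2) atTop (𝓝 1))
    (hinf : Tendsto (fun n => (a n : ℝ)) atTop atTop)
    (hs : Summable fun n => (1 : ℝ) / (a n : ℝ)) (p q : ℤ)
    (hq : 0 < q) (hpq : (q : ℝ) * r a 0 = p) :
    ∀ᶠ n in atTop, |X a p q (n + 1) - X a p q n| < X a p q n := by
  have har := ar_tendsto ha hlim hinf
  have har1 : Tendsto (fun n => (a (n + 1) : ℝ) * r a (n + 1)) atTop (𝓝 1) :=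
    har.comp (tendsto_add_atTop_nat 1)
  have hrat : Tendsto (fun n => ((a n : ℝ) ^ 2 / (a (n + 1) : ℝ))
      * ((a (n + 1) : ℝ) * r a (n + 1)) / ((a n : ℝ) * r a n)) atTop (𝓝 (1 * 1 / 1)) :=
    ((inv_lim hlim).mul har1).div har one_ne_zero
  have h0 := hrat.eventually (lt_mem_nhds (show (0 : ℝ) < 1 * 1 / 1 by norm_num))
  have h2 := hrat.eventually (gt_mem_nhds (show (1 * 1 / 1 : ℝ) < 2 by norm_num))
  filter_upwards [h0, h2] with n h0 h2
  have hA : ∀ n, (0 : ℝ) < (a n : ℝ) := fun n => by exact_mod_cast ha n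
  have hrp := r_pos ha hs n
  have hXn := X_eq ha hs p q hpq n
  have hXn1 := X_eq ha hs p q hpq (n + 1)
  have hXp : (0 : ℝ) < (X a p q n : ℝ) := by exact_mod_cast X_pos ha hs p q hq hpq n
  have hid : (X a p q (n + 1) : ℝ) = (X a p q n : ℝ) * (((a n : ℝ) ^ 2 / (a (n + 1) : ℝ))
      * ((a (n + 1) : ℝ) * r a (n + 1)) / ((a n : ℝ) * r a n)) := by
    rw [hXn, hXn1, P_succ]
    have := hA n
    have := hA (n + 1)
    push_cast
    field_simp
  have hreal : |(X a p q (n + 1) : ℝ) - (X a p q n : ℝ)| < (X a p q n : ℝ) := by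
    rw [abs_lt, hid]
    constructor <;> nlinarith
  exact_mod_cast hreal

theorem X_diff (ha : ∀ n, 0 < a n)
    (hlim : Tendsto (fun n => (a (n + 1) : ℝ) / (a n : ℝ) ^ 2) atTop (𝓝 1))
    (hinf : Tendsto (fun n => (a n : ℝ)) atTop atTop)
    (hs : Summable fun n => (1 : ℝ) / (a n : ℝ)) (p q : ℤ)
    (hq : 0 < q) (hpq : (q : ℝ) * r a 0 = p) :
    Tendsto (fun n => (X a p q (n + 1) : ℝ) - (X a p q n : ℝ) - q * D a n) atTop (𝓝 0) := by
  have hz := (z_tendsto ha hlim hinf).const_mul (12 * (q : ℝ))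
  rw [mul_zero] at hz
  have hb := ar_bound ha hlim hinf
  have hb1 := (tendsto_add_atTop_nat 1).eventually hb
  refine squeeze_zero_norm' ?_ hz
  filter_upwards [hb, hb1, growth hlim ha, hinf.eventually_ge_atTop 4] with n h1 h2 h3 h4
  have hA : ∀ n, (0 : ℝ) < (a n : ℝ) := fun n => by exact_mod_cast ha n
  have hp := hA n
  have hp1 := hA (n + 1)
  have hPn : (0 : ℝ) < (P a n : ℝ) := by exact_mod_cast P_pos ha n
  have hq' : (0 : ℝ) < (q : ℝ) := by exact_mod_cast hq
  have hid : (X a p q (n + 1) : ℝ) - (X a p q n : ℝ) - q * D a n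
      = q * ((P a n : ℝ) / (a n : ℝ)) * (((a n : ℝ) ^ 2 / (a (n + 1) : ℝ))
        * ((a (n + 1) : ℝ) * r a (n + 1) - 1) - ((a n : ℝ) * r a n - 1)) := by
    rw [X_eq ha hs p q hpq n, X_eq ha hs p q hpq (n + 1), P_succ, D]
    push_cast
    field_simp
    ring
  rw [hid, Real.norm_eq_abs, abs_mul, abs_of_pos (by positivity : (0:ℝ) < q * ((P a n : ℝ) / (a n : ℝ)))]
  have hA2 : (a n : ℝ) ^ 2 / (a (n + 1) : ℝ) ≤ 2 := by
    rw [div_le_iff₀ hp1]; linarith [h3.1]
  have hA0 : 0 ≤ (a n : ℝ) ^ 2 / (a (n + 1) : ℝ) := by positivity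
  have h5 : 4 / (a (n + 1) : ℝ) ≤ 4 / (a n : ℝ) := by
    apply div_le_div_of_nonneg_left (by norm_num) hp
    nlinarith [h3.1]
  have hbr : |((a n : ℝ) ^ 2 / (a (n + 1) : ℝ))
        * ((a (n + 1) : ℝ) * r a (n + 1) - 1) - ((a n : ℝ) * r a n - 1)| ≤ 12 / (a n : ℝ) := by
    have e1 : 0 ≤ (a (n + 1) : ℝ) * r a (n + 1) - 1 := by linarith [h2.1]
    have e2 : (a (n + 1) : ℝ) * r a (n + 1) - 1 ≤ 4 / (a n : ℝ) := by linarith [h2.2]
    have e3 : 0 ≤ (a n : ℝ) * r a n - 1 := by linarith [h1.1]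
    have e4 : (a n : ℝ) * r a n - 1 ≤ 4 / (a n : ℝ) := by linarith [h1.2]
    have e5 : ((a n : ℝ) ^ 2 / (a (n + 1) : ℝ)) * ((a (n + 1) : ℝ) * r a (n + 1) - 1)
        ≤ 2 * (4 / (a n : ℝ)) := mul_le_mul hA2 e2 e1 (by norm_num)
    have e6 : 0 ≤ ((a n : ℝ) ^ 2 / (a (n + 1) : ℝ)) * ((a (n + 1) : ℝ) * r a (n + 1) - 1) :=
      mul_nonneg hA0 e1
    have e7 : 12 / (a n : ℝ) = 3 * (4 / (a n : ℝ)) := by ring
    have e8 : 0 < 4 / (a n : ℝ) := by positivity
    rw [abs_le, e7]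
    constructor <;> linarith
  calc q * ((P a n : ℝ) / (a n : ℝ)) * _ ≤ q * ((P a n : ℝ) / (a n : ℝ)) * (12 / (a n : ℝ)) :=
        mul_le_mul_of_nonneg_left hbr (by positivity)
    _ = 12 * (q : ℝ) * ((P a n : ℝ) / (a n : ℝ) ^ 2) := by field_simp

/-- **Main theorem.** -/
theorem main (ha : ∀ n, 0 < a n)
    (hlim : Tendsto (fun n => (a (n + 1) : ℝ) / (a n : ℝ) ^ 2) atTop (𝓝 1))
    (hinf : Tendsto (fun n => (a n : ℝ)) atTop atTop) (p q : ℤ) (hq : 0 < q)
    (hsum : HasSum (fun n => (1 : ℝ) / (a n : ℝ)) ((p : ℝ) / q)) (δ : ℝ) (hδ : 0 < δ)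
    (hD : ∃ᶠ n in atTop, |D a n| ≤ (1 - δ) / q) :
    ∀ᶠ n in atTop, a (n + 1) = a n ^ 2 - a n + 1 := by
  have hq' : (0 : ℝ) < (q : ℝ) := by exact_mod_cast hq
  have hs := hsum.summable
  have hpq : (q : ℝ) * r a 0 = p := by
    have : r a 0 = (p : ℝ) / q := by rw [← hsum.tsum_eq]; simp [r]
    rw [this]; field_simp
  have hclose := X_close ha hlim hinf hs p q hq hpq
  rw [eventually_atTop] at hclose
  obtain ⟨N, hN⟩ := hclose
  have hdiff := (X_diff ha hlim hinf hs p q hq hpq).eventually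
    (Metric.ball_mem_nhds (0 : ℝ) hδ)
  obtain ⟨n, hn, hd, hn2⟩ := (hD.and_eventually (hdiff.and (eventually_ge_atTop N))).exists
  have heq : X a p q (n + 1) = X a p q n := by
    rw [dist_zero_right, Real.norm_eq_abs] at hd
    have h1 : |(q : ℝ) * D a n| ≤ 1 - δ := by
      rw [abs_mul, abs_of_pos hq']
      calc (q : ℝ) * |D a n| ≤ q * ((1 - δ) / q) := mul_le_mul_of_nonneg_left hn hq'.le
        _ = 1 - δ := by field_simp
    have h2 : |(X a p q (n + 1) : ℝ) - (X a p q n : ℝ)| < 1 := by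
      have := abs_add_le ((X a p q (n + 1) : ℝ) - (X a p q n : ℝ) - q * D a n) (q * D a n)
      rw [sub_add_cancel] at this
      linarith
    have h3 : |X a p q (n + 1) - X a p q n| < 1 := by exact_mod_cast h2
    have := Int.abs_lt_one_iff.1 h3
    linarith
  rw [eventually_atTop]
  exact ⟨n, fun m hm => (sylvester_of_eq p q (X_pos ha hs p q hq hpq) N hN n hn2 heq m hm).2⟩

/-- if `P_n / a_n` does not tend to infinity -/
theorem frequently_of_not_tendsto (ha : ∀ n, 0 < a n)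
    (hlim : Tendsto (fun n => (a (n + 1) : ℝ) / (a n : ℝ) ^ 2) atTop (𝓝 1))
    (hno : ¬ Tendsto (fun n => (P a n : ℝ) / (a n : ℝ)) atTop atTop) (δ : ℝ) (hδ : 0 < δ) :
    ∃ᶠ n in atTop, |D a n| < δ := by
  rw [tendsto_atTop] at hno
  push Not at hno
  obtain ⟨B, hB⟩ := hno
  have hB' : ∃ᶠ n in atTop, (P a n : ℝ) / (a n : ℝ) < |B| + 1 := by
    refine hB.mono fun n hn => ?_
    have := le_abs_self B
    linarith
  have hpos : 0 < |B| + 1 := by positivity
  have hsmall := (inv_lim hlim).eventually (Metric.ball_mem_nhds (1 : ℝ)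
    (show 0 < δ / (|B| + 1) by positivity))
  refine (hB'.and_eventually hsmall).mono fun n hn => ?_
  obtain ⟨h1, h2⟩ := hn
  rw [Real.dist_eq] at h2
  have hA : (0 : ℝ) < (a n : ℝ) := by exact_mod_cast ha n
  have hPn : (0 : ℝ) < (P a n : ℝ) := by exact_mod_cast P_pos ha n
  unfold D
  rw [abs_mul, abs_of_pos (by positivity : (0 : ℝ) < (P a n : ℝ) / (a n : ℝ))]
  calc (P a n : ℝ) / (a n : ℝ) * |(a n : ℝ) ^ 2 / (a (n + 1) : ℝ) - 1|
      ≤ (|B| + 1) * |(a n : ℝ) ^ 2 / (a (n + 1) : ℝ) - 1| :=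
        mul_le_mul_of_nonneg_right h1.le (abs_nonneg _)
    _ < (|B| + 1) * (δ / (|B| + 1)) := mul_lt_mul_of_pos_left h2 hpos
    _ = δ := by field_simp


/-! ### The lcm version -/

/-- `L_n = lcm(a_0, …, a_{n-1})` -/
def L (a : ℕ → ℕ) (n : ℕ) : ℕ := (Finset.range n).lcm a

/-- `G_n = P_n / L_n` (see `P_eq`) -/
def G (a : ℕ → ℕ) : ℕ → ℕ
  | 0 => 1
  | n + 1 => G a n * Nat.gcd (a n) (L a n)

theorem L_succ (a : ℕ → ℕ) (n : ℕ) : L a (n + 1) = Nat.lcm (a n) (L a n) := by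
  unfold L
  rw [Finset.range_add_one, Finset.lcm_insert]
  rfl

theorem P_eq (a : ℕ → ℕ) (n : ℕ) : P a n = G a n * L a n := by
  induction n with
  | zero => simp [P, G, L]
  | succ n ih =>
    have h := Nat.gcd_mul_lcm (a n) (L a n)
    rw [P_succ, L_succ, ih, G, mul_assoc (G a n) (Nat.gcd _ _), h]
    ring

theorem G_pos (ha : ∀ n, 0 < a n) (n : ℕ) : 0 < G a n := by
  have h := P_pos ha n
  rw [P_eq] at h
  exact Nat.pos_of_mul_pos_right h

theorem L_pos (ha : ∀ n, 0 < a n) (n : ℕ) : 0 < L a n := by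
  have h := P_pos ha n
  rw [P_eq] at h
  exact Nat.pos_of_mul_pos_left h

theorem G_dvd_succ (a : ℕ → ℕ) (n : ℕ) : G a n ∣ G a (n + 1) := Dvd.intro _ rfl

theorem G_mono (ha : ∀ n, 0 < a n) : Monotone (G a) :=
  monotone_nat_of_le_succ fun n => Nat.le_of_dvd (G_pos ha (n + 1)) (G_dvd_succ a n)

theorem G_dvd_X (a : ℕ → ℕ) (p q : ℤ) (n : ℕ) : (G a n : ℤ) ∣ X a p q n := by
  induction n with
  | zero => simp [G]
  | succ n ih =>
    have e : X a p q (n + 1) = (a n : ℤ) * X a p q n - q * (P a n : ℤ) := rfl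
    rw [e, G, P_eq]
    push_cast
    refine dvd_sub ?_ ?_
    · rw [mul_comm (a n : ℤ)]
      exact mul_dvd_mul ih (by exact_mod_cast Nat.gcd_dvd_left _ _)
    · refine Dvd.dvd.mul_left ?_ q
      exact mul_dvd_mul dvd_rfl (by exact_mod_cast Nat.gcd_dvd_right _ _)

/-- `E_n = (L_n / a_n) (a_n ^ 2 / a_{n+1} - 1)` -/
noncomputable def E (a : ℕ → ℕ) (n : ℕ) : ℝ :=
  (L a n : ℝ) / (a n : ℝ) * ((a n : ℝ) ^ 2 / (a (n + 1) : ℝ) - 1)

theorem D_eq (a : ℕ → ℕ) (n : ℕ) : D a n = G a n * E a n := by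
  unfold D E; rw [P_eq]; push_cast; ring

theorem hpq_of {p q : ℤ} (hq : 0 < q)
    (hsum : HasSum (fun n => (1 : ℝ) / (a n : ℝ)) ((p : ℝ) / q)) : (q : ℝ) * r a 0 = p := by
  have hq' : (0 : ℝ) < (q : ℝ) := by exact_mod_cast hq
  have : r a 0 = (p : ℝ) / q := by rw [← hsum.tsum_eq]; simp [r]
  rw [this]; field_simp

/-- two-sided bound infinitely often -/
theorem main_freq (ha : ∀ n, 0 < a n)
    (hlim : Tendsto (fun n => (a (n + 1) : ℝ) / (a n : ℝ) ^ 2) atTop (𝓝 1))
    (hinf : Tendsto (fun n => (a n : ℝ)) atTop atTop) (p q : ℤ) (hq : 0 < q)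
    (hsum : HasSum (fun n => (1 : ℝ) / (a n : ℝ)) ((p : ℝ) / q)) (δ : ℝ) (hδ : 0 < δ)
    (hE : ∃ᶠ n in atTop, |E a n| ≤ (1 - δ) / q) :
    ∀ᶠ n in atTop, a (n + 1) = a n ^ 2 - a n + 1 := by
  have hq' : (0 : ℝ) < (q : ℝ) := by exact_mod_cast hq
  have hs := hsum.summable
  have hpq := hpq_of hq hsum
  have hclose := X_close ha hlim hinf hs p q hq hpq
  rw [eventually_atTop] at hclose
  obtain ⟨N, hN⟩ := hclose
  have hdiff := (X_diff ha hlim hinf hs p q hq hpq).eventually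
    (Metric.ball_mem_nhds (0 : ℝ) hδ)
  obtain ⟨n, hn, hd, hn2⟩ := (hE.and_eventually (hdiff.and (eventually_ge_atTop N))).exists
  have hG : (1 : ℝ) ≤ (G a n : ℝ) := by exact_mod_cast G_pos ha n
  have heq : X a p q (n + 1) = X a p q n := by
    rw [dist_zero_right, Real.norm_eq_abs] at hd
    have h1 : |(q : ℝ) * D a n| ≤ (G a n : ℝ) * (1 - δ) := by
      rw [D_eq, abs_mul, abs_of_pos hq', abs_mul, abs_of_pos (by linarith : (0:ℝ) < G a n)]
      calc (q : ℝ) * ((G a n : ℝ) * |E a n|) = (G a n : ℝ) * (q * |E a n|) := by ring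
        _ ≤ (G a n : ℝ) * (q * ((1 - δ) / q)) := by gcongr
        _ = (G a n : ℝ) * (1 - δ) := by field_simp
    have h2 : |(X a p q (n + 1) : ℝ) - (X a p q n : ℝ)| < (G a n : ℝ) := by
      have := abs_add_le ((X a p q (n + 1) : ℝ) - (X a p q n : ℝ) - q * D a n) (q * D a n)
      rw [sub_add_cancel] at this
      nlinarith
    have h3 : |X a p q (n + 1) - X a p q n| < (G a n : ℤ) := by exact_mod_cast h2
    have hdv : (G a n : ℤ) ∣ X a p q (n + 1) - X a p q n :=
      dvd_sub (dvd_trans (by exact_mod_cast G_dvd_succ a n) (G_dvd_X a p q (n + 1)))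
        (G_dvd_X a p q n)
    have := Int.eq_zero_of_abs_lt_dvd hdv h3
    linarith
  rw [eventually_atTop]
  exact ⟨n, fun m hm => (sylvester_of_eq p q (X_pos ha hs p q hq hpq) N hN n hn2 heq m hm).2⟩

/-- one-sided bound eventually -/
theorem main_event (ha : ∀ n, 0 < a n)
    (hlim : Tendsto (fun n => (a (n + 1) : ℝ) / (a n : ℝ) ^ 2) atTop (𝓝 1))
    (hinf : Tendsto (fun n => (a n : ℝ)) atTop atTop) (p q : ℤ) (hq : 0 < q)
    (hsum : HasSum (fun n => (1 : ℝ) / (a n : ℝ)) ((p : ℝ) / q)) (δ : ℝ) (hδ : 0 < δ)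
    (hE : ∀ᶠ n in atTop, E a n ≤ (1 - δ) / q) :
    ∀ᶠ n in atTop, a (n + 1) = a n ^ 2 - a n + 1 := by
  have hq' : (0 : ℝ) < (q : ℝ) := by exact_mod_cast hq
  have hs := hsum.summable
  have hpq := hpq_of hq hsum
  have hclose := X_close ha hlim hinf hs p q hq hpq
  have hdiff := (X_diff ha hlim hinf hs p q hq hpq).eventually
    (Metric.ball_mem_nhds (0 : ℝ) hδ)
  obtain ⟨N, hN⟩ := eventually_atTop.1 (hclose.and (hdiff.and hE))
  have hle : ∀ n, N ≤ n → X a p q (n + 1) ≤ X a p q n := by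
    intro n hn
    obtain ⟨-, hd, hn⟩ := hN n hn
    have hG : (1 : ℝ) ≤ (G a n : ℝ) := by exact_mod_cast G_pos ha n
    rw [dist_zero_right, Real.norm_eq_abs] at hd
    have h1 : (q : ℝ) * D a n ≤ (G a n : ℝ) * (1 - δ) := by
      rw [D_eq]
      calc (q : ℝ) * ((G a n : ℝ) * E a n) = (G a n : ℝ) * (q * E a n) := by ring
        _ ≤ (G a n : ℝ) * (q * ((1 - δ) / q)) := by gcongr
        _ = (G a n : ℝ) * (1 - δ) := by field_simp
    have h2 : (X a p q (n + 1) : ℝ) - (X a p q n : ℝ) < (G a n : ℝ) := by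
      have := (abs_lt.1 hd).2
      nlinarith
    have h3 : X a p q (n + 1) - X a p q n < (G a n : ℤ) := by exact_mod_cast h2
    have hdv : (G a n : ℤ) ∣ X a p q (n + 1) - X a p q n :=
      dvd_sub (dvd_trans (by exact_mod_cast G_dvd_succ a n) (G_dvd_X a p q (n + 1)))
        (G_dvd_X a p q n)
    by_contra hlt
    have h4 : 0 < X a p q (n + 1) - X a p q n := by omega
    have := Int.le_of_dvd h4 hdv
    omega
  -- a nonincreasing sequence of positive integers stabilises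
  have hXp := X_pos ha hs p q hq hpq
  have hex : ∃ n, N ≤ n ∧ X a p q (n + 1) = X a p q n := by
    by_contra hne
    push Not at hne
    have hdec : ∀ k : ℕ, X a p q (N + k) ≤ X a p q N - k := by
      intro k
      induction k with
      | zero => simp
      | succ k ih =>
        have h1 := hle (N + k) (by omega)
        have h2 := hne (N + k) (by omega)
        rw [← add_assoc]
        push_cast
        omega
    have h1 := hdec (X a p q N).toNat
    have h2 := hXp (N + (X a p q N).toNat)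
    have h3 := hXp N
    rw [Int.toNat_of_nonneg h3.le] at h1
    omega
  obtain ⟨n, hn, heq⟩ := hex
  rw [eventually_atTop]
  exact ⟨n, fun m hm => (sylvester_of_eq p q hXp N (fun m hm => (hN m hm).1) n hn heq m hm).2⟩

/-- if `L_n / a_n` does not tend to infinity -/
theorem frequently_E (ha : ∀ n, 0 < a n)
    (hlim : Tendsto (fun n => (a (n + 1) : ℝ) / (a n : ℝ) ^ 2) atTop (𝓝 1))
    (hno : ¬ Tendsto (fun n => (L a n : ℝ) / (a n : ℝ)) atTop atTop) (δ : ℝ) (hδ : 0 < δ) :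
    ∃ᶠ n in atTop, |E a n| < δ := by
  rw [tendsto_atTop] at hno
  push Not at hno
  obtain ⟨B, hB⟩ := hno
  have hB' : ∃ᶠ n in atTop, (L a n : ℝ) / (a n : ℝ) < |B| + 1 := by
    refine hB.mono fun n hn => ?_
    have := le_abs_self B
    linarith
  have hpos : 0 < |B| + 1 := by positivity
  have hsmall := (inv_lim hlim).eventually (Metric.ball_mem_nhds (1 : ℝ)
    (show 0 < δ / (|B| + 1) by positivity))
  refine (hB'.and_eventually hsmall).mono fun n hn => ?_
  obtain ⟨h1, h2⟩ := hn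
  rw [Real.dist_eq] at h2
  have hA : (0 : ℝ) < (a n : ℝ) := by exact_mod_cast ha n
  have hPn : (0 : ℝ) < (L a n : ℝ) := by exact_mod_cast L_pos ha n
  unfold E
  rw [abs_mul, abs_of_pos (by positivity : (0 : ℝ) < (L a n : ℝ) / (a n : ℝ))]
  calc (L a n : ℝ) / (a n : ℝ) * |(a n : ℝ) ^ 2 / (a (n + 1) : ℝ) - 1|
      ≤ (|B| + 1) * |(a n : ℝ) ^ 2 / (a (n + 1) : ℝ) - 1| :=
        mul_le_mul_of_nonneg_right h1.le (abs_nonneg _)
    _ < (|B| + 1) * (δ / (|B| + 1)) := mul_lt_mul_of_pos_left h2 hpos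
    _ = δ := by field_simp

theorem main_lcm (ha : ∀ n, 0 < a n)
    (hlim : Tendsto (fun n => (a (n + 1) : ℝ) / (a n : ℝ) ^ 2) atTop (𝓝 1))
    (hinf : Tendsto (fun n => (a n : ℝ)) atTop atTop) (p q : ℤ) (hq : 0 < q)
    (hsum : HasSum (fun n => (1 : ℝ) / (a n : ℝ)) ((p : ℝ) / q))
    (hno : ¬ Tendsto (fun n => (L a n : ℝ) / (a n : ℝ)) atTop atTop) :
    ∀ᶠ n in atTop, a (n + 1) = a n ^ 2 - a n + 1 := by
  have hq' : (0 : ℝ) < (q : ℝ) := by exact_mod_cast hq
  refine main_freq ha hlim hinf p q hq hsum (1 / 2) (by norm_num) ?_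
  exact (frequently_E ha hlim hno ((1 - 1 / 2) / q) (by positivity)).mono fun n hn => hn.le

theorem bad_G (ha : ∀ n, 0 < a n) (n : ℕ) (h : ¬ Nat.Coprime (a n) (P a n)) :
    2 * G a n ≤ G a (n + 1) := by
  have h1 : Nat.gcd (a n) (L a n) ≠ 1 := by
    intro h1
    apply h
    unfold P
    refine Nat.Coprime.prod_right fun j hj => ?_
    exact Nat.Coprime.coprime_dvd_right (Finset.dvd_lcm hj) h1
  have h2 : 0 < Nat.gcd (a n) (L a n) := Nat.gcd_pos_of_pos_left _ (ha n)
  have h3 : 2 ≤ Nat.gcd (a n) (L a n) := by omega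
  rw [G, mul_comm 2]
  exact Nat.mul_le_mul_left _ h3

/-- if infinitely many terms are not coprime to the product of the previous ones,
`G_n → ∞` -/
theorem G_tendsto (ha : ∀ n, 0 < a n) (h : ∃ᶠ n in atTop, ¬ Nat.Coprime (a n) (P a n)) :
    Tendsto (G a) atTop atTop := by
  refine tendsto_atTop_atTop_of_monotone (G_mono ha) fun B => ?_
  induction B with
  | zero => exact ⟨0, by omega⟩
  | succ B ih =>
    obtain ⟨n, hn⟩ := ih
    obtain ⟨m, hm, hm2⟩ := (h.and_eventually (eventually_ge_atTop n)).exists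
    refine ⟨m + 1, ?_⟩
    have h1 := bad_G ha m hm
    have h2 := G_mono ha hm2
    have h3 := G_pos ha m
    omega

theorem main_bad (ha : ∀ n, 0 < a n)
    (hlim : Tendsto (fun n => (a (n + 1) : ℝ) / (a n : ℝ) ^ 2) atTop (𝓝 1))
    (hinf : Tendsto (fun n => (a n : ℝ)) atTop atTop) (p q : ℤ) (hq : 0 < q)
    (hsum : HasSum (fun n => (1 : ℝ) / (a n : ℝ)) ((p : ℝ) / q))
    (hbad : ∃ᶠ n in atTop, ¬ Nat.Coprime (a n) (P a n))
    (hno : ¬ Tendsto (fun n => |D a n|) atTop atTop) :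
    ∀ᶠ n in atTop, a (n + 1) = a n ^ 2 - a n + 1 := by
  have hq' : (0 : ℝ) < (q : ℝ) := by exact_mod_cast hq
  refine main_freq ha hlim hinf p q hq hsum (1 / 2) (by norm_num) ?_
  rw [tendsto_atTop] at hno
  push Not at hno
  obtain ⟨B, hB⟩ := hno
  have hG : Tendsto (fun n => (G a n : ℝ)) atTop atTop :=
    tendsto_natCast_atTop_atTop.comp (G_tendsto ha hbad)
  have hGb := hG.eventually_ge_atTop ((|B| + 1) / ((1 - 1 / 2) / q))
  refine (hB.and_eventually hGb).mono fun n hn => ?_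
  obtain ⟨h1, h2⟩ := hn
  have hGp : (0 : ℝ) < (G a n : ℝ) := by exact_mod_cast G_pos ha n
  have hc : (0 : ℝ) < (1 - 1 / 2) / q := by positivity
  rw [D_eq, abs_mul, abs_of_pos hGp] at h1
  rw [div_le_iff₀ hc] at h2
  have h3 := le_abs_self B
  by_contra hcon
  push Not at hcon
  have : (G a n : ℝ) * ((1 - 1 / 2) / q) ≤ (G a n : ℝ) * |E a n| :=
    mul_le_mul_of_nonneg_left hcon.le hGp.le
  linarith

/-- `X_n` grows subexponentially -/
theorem X_subexp (ha : ∀ n, 0 < a n)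
    (hlim : Tendsto (fun n => (a (n + 1) : ℝ) / (a n : ℝ) ^ 2) atTop (𝓝 1))
    (hinf : Tendsto (fun n => (a n : ℝ)) atTop atTop) (p q : ℤ) (hq : 0 < q)
    (hsum : HasSum (fun n => (1 : ℝ) / (a n : ℝ)) ((p : ℝ) / q)) (c : ℝ) (hc : 1 < c) :
    ∀ᶠ n in atTop, (X a p q n : ℝ) < c ^ n := by
  have hs := hsum.summable
  have hpq := hpq_of hq hsum
  have har := ar_tendsto ha hlim hinf
  have har1 : Tendsto (fun n => (a (n + 1) : ℝ) * r a (n + 1)) atTop (𝓝 1) :=
    har.comp (tendsto_add_atTop_nat 1)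
  have hrat : Tendsto (fun n => ((a n : ℝ) ^ 2 / (a (n + 1) : ℝ))
      * ((a (n + 1) : ℝ) * r a (n + 1)) / ((a n : ℝ) * r a n)) atTop (𝓝 (1 * 1 / 1)) :=
    ((inv_lim hlim).mul har1).div har one_ne_zero
  set c' : ℝ := (1 + c) / 2 with hc'
  have h1c : 1 < c' := by rw [hc']; linarith
  have hcc : c' < c := by rw [hc']; linarith
  have h2 := hrat.eventually (gt_mem_nhds (show (1 * 1 / 1 : ℝ) < c' by linarith))
  obtain ⟨N, hN⟩ := eventually_atTop.1 h2
  have hA : ∀ n, (0 : ℝ) < (a n : ℝ) := fun n => by exact_mod_cast ha n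
  have hstep : ∀ n, N ≤ n → (X a p q (n + 1) : ℝ) ≤ c' * (X a p q n : ℝ) := by
    intro n hn
    have hrp := r_pos ha hs n
    have hXn := X_eq ha hs p q hpq n
    have hXn1 := X_eq ha hs p q hpq (n + 1)
    have hXp : (0 : ℝ) < (X a p q n : ℝ) := by exact_mod_cast X_pos ha hs p q hq hpq n
    have hid : (X a p q (n + 1) : ℝ) = (X a p q n : ℝ) * (((a n : ℝ) ^ 2 / (a (n + 1) : ℝ))
        * ((a (n + 1) : ℝ) * r a (n + 1)) / ((a n : ℝ) * r a n)) := by
      rw [hXn, hXn1, P_succ]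
      have := hA n
      have := hA (n + 1)
      push_cast
      field_simp
    rw [hid, mul_comm c']
    exact mul_le_mul_of_nonneg_left (hN n hn).le hXp.le
  have hk : ∀ k, (X a p q (N + k) : ℝ) ≤ c' ^ k * (X a p q N : ℝ) := by
    intro k
    induction k with
    | zero => simp
    | succ k ih =>
      have := hstep (N + k) (by omega)
      rw [← add_assoc, pow_succ]
      nlinarith
  have hlimpow : Tendsto (fun n : ℕ => (c / c') ^ n) atTop atTop :=
    tendsto_pow_atTop_atTop_of_one_lt (by rw [lt_div_iff₀ (by linarith)]; linarith)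
  filter_upwards [hlimpow.eventually_gt_atTop (X a p q N : ℝ), eventually_ge_atTop N] with n hn hNn
  obtain ⟨k, rfl⟩ := Nat.exists_eq_add_of_le hNn
  have hXN : (0 : ℝ) < (X a p q N : ℝ) := by exact_mod_cast X_pos ha hs p q hq hpq N
  have hc0 : (0 : ℝ) < c' ^ (N + k) := by positivity
  rw [div_pow, lt_div_iff₀ hc0] at hn
  calc (X a p q (N + k) : ℝ) ≤ c' ^ k * (X a p q N : ℝ) := hk k
    _ ≤ c' ^ (N + k) * (X a p q N : ℝ) := by
        have : c' ^ k ≤ c' ^ (N + k) := pow_le_pow_right₀ h1c.le (by omega)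
        exact mul_le_mul_of_nonneg_right this hXN.le
    _ < c ^ (N + k) := by linarith

theorem G_subexp (ha : ∀ n, 0 < a n)
    (hlim : Tendsto (fun n => (a (n + 1) : ℝ) / (a n : ℝ) ^ 2) atTop (𝓝 1))
    (hinf : Tendsto (fun n => (a n : ℝ)) atTop atTop) (p q : ℤ) (hq : 0 < q)
    (hsum : HasSum (fun n => (1 : ℝ) / (a n : ℝ)) ((p : ℝ) / q)) (c : ℝ) (hc : 1 < c) :
    ∀ᶠ n in atTop, (G a n : ℝ) < c ^ n := by
  have hs := hsum.summable
  have hpq := hpq_of hq hsum
  filter_upwards [X_subexp ha hlim hinf p q hq hsum c hc] with n hn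
  have h1 := Int.le_of_dvd (X_pos ha hs p q hq hpq n) (G_dvd_X a p q n)
  have h2 : (G a n : ℝ) ≤ (X a p q n : ℝ) := by exact_mod_cast h1
  linarith

/-- indices `k < n` with `a_k` not coprime to `a_0 ⋯ a_{k-1}` -/
def bad (a : ℕ → ℕ) (n : ℕ) : Finset ℕ :=
  (Finset.range n).filter fun k => ¬ Nat.Coprime (a k) (P a k)

theorem two_pow_bad (ha : ∀ n, 0 < a n) (n : ℕ) : 2 ^ (bad a n).card ≤ G a n := by
  induction n with
  | zero => simp [bad, G]
  | succ n ih =>
    by_cases h : Nat.Coprime (a n) (P a n)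
    · have e : bad a (n + 1) = bad a n := by
        unfold bad
        rw [Finset.range_add_one, Finset.filter_insert, if_neg (by simpa using h)]
      rw [e]
      exact ih.trans (G_mono ha (Nat.le_succ n))
    · have e : bad a (n + 1) = insert n (bad a n) := by
        unfold bad
        rw [Finset.range_add_one, Finset.filter_insert, if_pos h]
      have hn : n ∉ bad a n := by simp [bad]
      rw [e, Finset.card_insert_of_notMem hn, pow_succ]
      have := bad_G ha n h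
      omega

theorem bad_density (ha : ∀ n, 0 < a n)
    (hlim : Tendsto (fun n => (a (n + 1) : ℝ) / (a n : ℝ) ^ 2) atTop (𝓝 1))
    (hinf : Tendsto (fun n => (a n : ℝ)) atTop atTop) (p q : ℤ) (hq : 0 < q)
    (hsum : HasSum (fun n => (1 : ℝ) / (a n : ℝ)) ((p : ℝ) / q)) (c : ℝ) (hc : 0 < c) :
    ∀ᶠ n in atTop, ((bad a n).card : ℝ) < c * n := by
  have h2c : (1 : ℝ) < (2 : ℝ) ^ c := Real.one_lt_rpow (by norm_num) hc
  filter_upwards [G_subexp ha hlim hinf p q hq hsum _ h2c] with n hn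
  have h1 : ((2 : ℝ) ^ (bad a n).card) ≤ (G a n : ℝ) := by exact_mod_cast two_pow_bad ha n
  have h2 : ((2 : ℝ) ^ ((bad a n).card : ℝ)) < (2 : ℝ) ^ (c * n) := by
    rw [Real.rpow_natCast, Real.rpow_mul_natCast (by norm_num)]
    linarith
  exact (Real.rpow_lt_rpow_left_iff (by norm_num : (1:ℝ) < 2)).1 h2

/-- multiples of `m ≥ 2` have density zero among the indices -/
theorem mult_density (ha : ∀ n, 0 < a n)
    (hlim : Tendsto (fun n => (a (n + 1) : ℝ) / (a n : ℝ) ^ 2) atTop (𝓝 1))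
    (hinf : Tendsto (fun n => (a n : ℝ)) atTop atTop) (p q : ℤ) (hq : 0 < q)
    (hsum : HasSum (fun n => (1 : ℝ) / (a n : ℝ)) ((p : ℝ) / q)) (m : ℕ) (hm : 2 ≤ m)
    (c : ℝ) (hc : 0 < c) :
    ∀ᶠ n in atTop, (((Finset.range n).filter fun k => m ∣ a k).card : ℝ) < c * n := by
  have hcard : ∀ n, ((Finset.range n).filter fun k => m ∣ a k).card ≤ (bad a n).card + 1 := by
    intro n
    rcases Finset.eq_empty_or_nonempty ((Finset.range n).filter fun k => m ∣ a k) with h | h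
    · rw [h]; simp
    · set s := (Finset.range n).filter fun k => m ∣ a k with hs
      have hmin := s.min'_mem h
      have hsub : s.erase (s.min' h) ⊆ bad a n := by
        intro k hk
        rw [Finset.mem_erase] at hk
        obtain ⟨hk1, hk2⟩ := hk
        have hlt : s.min' h < k := lt_of_le_of_ne (s.min'_le k hk2) (Ne.symm hk1)
        have hk2 := Finset.mem_filter.1 hk2
        rw [Finset.mem_range] at hk2
        have hmin := Finset.mem_filter.1 hmin
        rw [bad, Finset.mem_filter, Finset.mem_range]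
        refine ⟨hk2.1, fun hcop => ?_⟩
        have h1 : m ∣ P a k := hmin.2.trans (Finset.dvd_prod_of_mem a (Finset.mem_range.2 hlt))
        have h2 := Nat.dvd_gcd hk2.2 h1
        rw [Nat.Coprime] at hcop
        rw [hcop] at h2
        have := Nat.le_of_dvd one_pos h2
        omega
      have h1 := Finset.card_le_card hsub
      rw [Finset.card_erase_of_mem hmin] at h1
      omega
  have hn1 : ∀ᶠ n : ℕ in atTop, (2 / c : ℝ) ≤ (n : ℝ) :=
    tendsto_natCast_atTop_atTop.eventually_ge_atTop _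
  filter_upwards [bad_density ha hlim hinf p q hq hsum (c / 2) (by positivity), hn1] with n hn h2
  have h1 : (((Finset.range n).filter fun k => m ∣ a k).card : ℝ) ≤ (bad a n).card + 1 := by
    exact_mod_cast hcard n
  rw [div_le_iff₀ hc] at h2
  nlinarith


/-! ### Wrappers -/

theorem exists_pq {a : ℕ → ℕ} (hs : Summable fun n => (1 : ℝ) / (a n : ℝ))
    (h : ¬ Irrational (∑' n, (1 : ℝ) / (a n : ℝ))) :
    ∃ p q : ℤ, 0 < q ∧ HasSum (fun n => (1 : ℝ) / (a n : ℝ)) ((p : ℝ) / q) := by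
  unfold Irrational at h
  push Not at h
  obtain ⟨y, hy⟩ := h
  refine ⟨y.num, y.den, by exact_mod_cast y.den_pos, ?_⟩
  have h1 : ((y.num : ℝ) / ((y.den : ℤ) : ℝ)) = ∑' n, (1 : ℝ) / (a n : ℝ) := by
    rw [← hy]
    have := Rat.num_div_den y
    push_cast
    exact_mod_cast this
  rw [h1]
  exact hs.hasSum

theorem summable_of (ha : ∀ n, 0 < a n)
    (hlim : Tendsto (fun n => (a (n + 1) : ℝ) / (a n : ℝ) ^ 2) atTop (𝓝 1))
    (hinf : Tendsto (fun n => (a n : ℝ)) atTop atTop) :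
    Summable fun n => (1 : ℝ) / (a n : ℝ) := by
  obtain ⟨n, hn⟩ := (summ ha hlim hinf).exists
  exact hn.1

/-- irrationality from non-coprimality -/
theorem irrational_of_density (ha : ∀ n, 0 < a n)
    (hlim : Tendsto (fun n => (a (n + 1) : ℝ) / (a n : ℝ) ^ 2) atTop (𝓝 1))
    (hinf : Tendsto (fun n => (a n : ℝ)) atTop atTop)
    (h : (∃ c : ℝ, 1 < c ∧ ∃ᶠ n : ℕ in atTop,
            c ^ n * (((Finset.range n).lcm a : ℕ) : ℝ) ≤ ((∏ j ∈ Finset.range n, a j : ℕ) : ℝ)) ∨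
         (∃ c : ℝ, 0 < c ∧ ∃ᶠ n : ℕ in atTop, c * (n : ℝ) ≤
            (((Finset.range n).filter fun k =>
              ¬ Nat.Coprime (a k) (∏ j ∈ Finset.range k, a j)).card : ℝ)) ∨
         (∃ m : ℕ, 2 ≤ m ∧ ∃ c : ℝ, 0 < c ∧ ∃ᶠ n : ℕ in atTop, c * (n : ℝ) ≤
            (((Finset.range n).filter fun k => m ∣ a k).card : ℝ))) :
    Irrational (∑' n, (1 : ℝ) / (a n : ℝ)) := by
  by_contra hirr
  obtain ⟨p, q, hq, hsum⟩ := exists_pq (summable_of ha hlim hinf) hirr
  rcases h with ⟨c, hc, hf⟩ | ⟨c, hc, hf⟩ | ⟨m, hm, c, hc, hf⟩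
  · obtain ⟨n, h1, h2⟩ := (hf.and_eventually (G_subexp ha hlim hinf p q hq hsum c hc)).exists
    have h3 : (∏ j ∈ Finset.range n, a j) = G a n * (Finset.range n).lcm a := P_eq a n
    rw [h3] at h1
    push_cast at h1
    have hL : (0 : ℝ) < (((Finset.range n).lcm a : ℕ) : ℝ) := by exact_mod_cast L_pos ha n
    have := le_of_mul_le_mul_right h1 hL
    linarith
  · obtain ⟨n, h1, h2⟩ := (hf.and_eventually (bad_density ha hlim hinf p q hq hsum c hc)).exists
    have h3 : ((Finset.range n).filter fun k =>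
      ¬ Nat.Coprime (a k) (∏ j ∈ Finset.range k, a j)) = bad a n := rfl
    rw [h3] at h1
    linarith
  · obtain ⟨n, h1, h2⟩ := (hf.and_eventually
      (mult_density ha hlim hinf p q hq hsum m hm c hc)).exists
    linarith

/-! ### The sequence `2^(2^n)` -/

/-- `t n = 2^(2^n)` as a real number -/
noncomputable def t (n : ℕ) : ℝ := (2 : ℝ) ^ (2 ^ n)

theorem t_succ (n : ℕ) : t (n + 1) = t n ^ 2 := by
  unfold t; rw [← pow_mul, pow_succ]

theorem t_pos (n : ℕ) : 0 < t n := by unfold t; positivity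

theorem two_le_t (n : ℕ) : 2 ≤ t n := by
  unfold t
  calc (2 : ℝ) = 2 ^ 1 := by norm_num
    _ ≤ 2 ^ (2 ^ n) := pow_le_pow_right₀ (by norm_num) Nat.one_le_two_pow

theorem t_atTop : Tendsto t atTop atTop := by
  have h : ∀ n : ℕ, (n : ℝ) ≤ t n := by
    intro n
    unfold t
    have h1 : n < 2 ^ n := Nat.lt_two_pow_self
    have h2 : 2 ^ n < 2 ^ (2 ^ n) := Nat.lt_two_pow_self
    exact_mod_cast (h1.trans h2).le
  exact tendsto_atTop_mono h tendsto_natCast_atTop_atTop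

variable {b : ℕ → ℕ}

theorem b_inf (hlim : Tendsto (fun n => (b n : ℝ) / t n) atTop (𝓝 1)) :
    Tendsto (fun n => (b n : ℝ)) atTop atTop := by
  have h : Tendsto (fun n => ((b n : ℝ) / t n) * t n) atTop atTop :=
    hlim.pos_mul_atTop one_pos t_atTop
  refine h.congr fun n => ?_
  have := t_pos n
  field_simp

theorem b_ratio (hlim : Tendsto (fun n => (b n : ℝ) / t n) atTop (𝓝 1)) :
    Tendsto (fun n => (b (n + 1) : ℝ) / (b n : ℝ) ^ 2) atTop (𝓝 1) := by
  have h1 : Tendsto (fun n => (b (n + 1) : ℝ) / t (n + 1)) atTop (𝓝 1) :=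
    hlim.comp (tendsto_add_atTop_nat 1)
  have h2 : Tendsto (fun n => ((b (n + 1) : ℝ) / t (n + 1)) / ((b n : ℝ) / t n) ^ 2) atTop
      (𝓝 (1 / 1 ^ 2)) := h1.div (hlim.pow 2) (by norm_num)
  simp only [one_pow, div_one] at h2
  refine h2.congr fun n => ?_
  rw [t_succ]
  have := t_pos n
  field_simp

/-- a sequence asymptotic to `2^(2^n)` does not satisfy Sylvester's recursion -/
theorem no_sylvester (_hb : ∀ n, 0 < b n) (hlim : Tendsto (fun n => (b n : ℝ) / t n) atTop (𝓝 1))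
    (hS : ∀ᶠ n in atTop, b (n + 1) = b n ^ 2 - b n + 1) : False := by
  -- `f n = b n / t n - 1`
  set f : ℕ → ℝ := fun n => (b n : ℝ) / t n - 1 with hf
  have hf0 : Tendsto f atTop (𝓝 0) := by
    have := hlim.sub_const 1
    simpa using this
  have hsmall : ∀ᶠ n in atTop, |f n| ≤ 1 / 4 := by
    have := hf0.eventually (Metric.ball_mem_nhds (0 : ℝ) (show (0:ℝ) < 1 / 4 by norm_num))
    filter_upwards [this] with n hn
    rw [dist_zero_right, Real.norm_eq_abs] at hn
    exact hn.le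
  obtain ⟨N, hN⟩ := eventually_atTop.1 (hS.and hsmall)
  have hrec : ∀ n, N ≤ n → f (n + 1) = 2 * f n + f n ^ 2 - (1 + f n) / t n + 1 / t n ^ 2 := by
    intro n hn
    have h1 := (hN n hn).1
    have h2 : b n ≤ b n ^ 2 := Nat.le_self_pow (by norm_num) _
    have h3 : (b (n + 1) : ℝ) = (b n : ℝ) ^ 2 - b n + 1 := by
      rw [h1]; push_cast [Nat.cast_sub h2]; ring
    have := t_pos n
    simp only [hf]
    rw [h3, t_succ]
    field_simp
    ring
  -- integrality: `b n ≠ t n + 1/2`; case distinction on the sign of `b N - t N`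
  have hint : ∀ n, (1 : ℝ) ≤ (b n : ℝ) - t n ∨ (b n : ℝ) - t n ≤ 0 := by
    intro n
    have ht : t n = ((2 ^ (2 ^ n) : ℕ) : ℝ) := by unfold t; push_cast; rfl
    rw [ht]
    rcases le_or_gt (2 ^ (2 ^ n) + 1) (b n) with h | h
    · left
      have : ((2 ^ (2 ^ n) : ℕ) : ℝ) + 1 ≤ (b n : ℝ) := by exact_mod_cast h
      linarith
    · right
      have : (b n : ℝ) ≤ ((2 ^ (2 ^ n) : ℕ) : ℝ) := by exact_mod_cast Nat.lt_succ_iff.1 h
      linarith
  rcases hint N with hpos | hneg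
  · -- positive case: `f` stays above `f N > 0`
    have key : ∀ k, f N ≤ f (N + k) ∧ 1 / t (N + k) ≤ f (N + k) := by
      intro k
      induction k with
      | zero =>
        refine ⟨le_rfl, ?_⟩
        have := t_pos N
        simp only [hf, add_zero]
        rw [le_sub_iff_add_le, div_add_one this.ne', div_le_div_iff_of_pos_right this]
        linarith
      | succ k ih =>
        have hr := hrec (N + k) (by omega)
        have htp := t_pos (N + k)
        have ht2 := two_le_t (N + k)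
        have hs := (abs_le.1 (hN (N + k) (by omega)).2)
        rw [← add_assoc]
        set T := t (N + k) with hT
        set F := f (N + k) with hF
        have hFT : 1 ≤ F * T := by
          have := mul_le_mul_of_nonneg_right ih.2 htp.le
          rwa [one_div, inv_mul_cancel₀ htp.ne'] at this
        have hge : F ≤ f (N + k + 1) := by
          rw [hr]
          have h1 : (1 + F) / T = 1 / T + F / T := by ring
          have h2 : 0 ≤ 1 / T ^ 2 := by positivity
          have hF0 : 0 ≤ F := le_trans (by positivity) ih.2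
          have h3 : F / T ≤ F ^ 2 := by
            rw [div_le_iff₀ htp]; nlinarith
          have h4 : 1 / T ≤ F := ih.2
          rw [h1]; nlinarith
        refine ⟨ih.1.trans hge, le_trans ?_ hge⟩
        refine le_trans ?_ ih.2
        rw [t_succ, ← hT]
        apply one_div_le_one_div_of_le htp
        nlinarith
    have hfN : 0 < f N := lt_of_lt_of_le (by have := t_pos (N + 0); positivity) (key 0).2
    have h1 : Tendsto (fun k => f (N + k)) atTop (𝓝 0) := by
      have := hf0.comp (tendsto_add_atTop_nat N)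
      refine this.congr fun k => ?_
      simp [add_comm]
    have := ge_of_tendsto' h1 (fun k => (key k).1)
    linarith
  · -- nonpositive case: `-f` increases and becomes positive
    have step : ∀ k, f (N + k) ≤ 0 → f (N + k + 1) ≤ f (N + k) - 1 / (2 * t (N + k)) := by
      intro k h0
      have hr := hrec (N + k) (by omega)
      have htp := t_pos (N + k)
      have ht2 := two_le_t (N + k)
      have hs := (abs_le.1 (hN (N + k) (by omega)).2)
      rw [hr]
      set T := t (N + k) with hT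
      set F := f (N + k) with hF
      have e1 : 1 / T ^ 2 ≤ (1 / T) * (1 / 2) := by
        have : 1 / T ≤ 1 / 2 := one_div_le_one_div_of_le (by norm_num) ht2
        have h0 : 0 ≤ 1 / T := by positivity
        calc 1 / T ^ 2 = (1 / T) * (1 / T) := by ring
          _ ≤ _ := mul_le_mul_of_nonneg_left this h0
      have e2 : (1 + F) / T = 1 / T + F * (1 / T) := by ring
      have e3 : 1 / (2 * T) = (1 / T) * (1 / 2) := by ring
      have e4 : 1 / T ≤ 1 / 2 := one_div_le_one_div_of_le (by norm_num) ht2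
      have e5 : 0 < 1 / T := by positivity
      rw [e2, e3]
      nlinarith
    have hpos' : ∀ k, 0 < 1 / (2 * t (N + k)) := fun k => by
      have := t_pos (N + k)
      positivity
    have h0 : ∀ k, f (N + k) ≤ 0 := by
      intro k
      induction k with
      | zero =>
        have := t_pos N
        simp only [hf, add_zero]
        rw [sub_nonpos, div_le_one this]
        linarith
      | succ k ih =>
        have h1 := step k ih
        have h2 := hpos' k
        rw [← add_assoc]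
        linarith
    have h1 : ∀ k, f (N + 1 + k) ≤ f (N + 1) := by
      intro k
      induction k with
      | zero => simp
      | succ k ih =>
        have h2 := step (1 + k) (h0 (1 + k))
        have h3 := hpos' (1 + k)
        have e : N + 1 + (k + 1) = N + (1 + k) + 1 := by ring
        have e' : N + (1 + k) = N + 1 + k := by ring
        rw [e]
        rw [e'] at h2 h3 ⊢
        linarith
    have h2 : f (N + 1) < 0 := by
      have h3 := step 0 (h0 0)
      have h4 := hpos' 0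
      have h5 := h0 0
      simp only [add_zero] at h3 h4 h5
      linarith
    have h3 : Tendsto (fun k => f (N + 1 + k)) atTop (𝓝 0) := by
      have := hf0.comp (tendsto_add_atTop_nat (N + 1))
      refine this.congr fun k => ?_
      simp [add_comm, add_left_comm]
    have := le_of_tendsto' h3 h1
    linarith


theorem irrational_two (hb : ∀ n, 0 < b n)
    (hlim : Tendsto (fun n => (b n : ℝ) / t n) atTop (𝓝 1))
    (h : ∀ δ : ℝ, 0 < δ → ∃ᶠ n in atTop, |E b n| < δ) :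
    Irrational (∑' n, (1 : ℝ) / (b n : ℝ)) := by
  by_contra hirr
  have hr := b_ratio hlim
  have hi := b_inf hlim
  obtain ⟨p, q, hq, hsum⟩ := exists_pq (summable_of hb hr hi) hirr
  have hq' : (0 : ℝ) < (q : ℝ) := by exact_mod_cast hq
  refine no_sylvester hb hlim (main_freq hb hr hi p q hq hsum (1 / 2) (by norm_num) ?_)
  exact (h ((1 - 1 / 2) / q) (by positivity)).mono fun n hn => hn.le

theorem prod_t (n : ℕ) : ∏ k ∈ Finset.range n, t k = t n / 2 := by
  induction n with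
  | zero => simp [t]
  | succ n ih => rw [Finset.prod_range_succ, ih, t_succ]; ring

/-- the three conditions for `b_n ∼ 2^(2^n)` -/
theorem irrational_two_of (hb : ∀ n, 0 < b n)
    (hlim : Tendsto (fun n => (b n : ℝ) / (2 : ℝ) ^ (2 ^ n)) atTop (𝓝 1))
    (h : (∀ δ : ℝ, 0 < δ → ∃ᶠ n in atTop,
            (((Finset.range n).lcm b : ℕ) : ℝ) / (b n : ℝ) *
              |(b n : ℝ) ^ 2 / (b (n + 1) : ℝ) - 1| < δ) ∨
         ¬ Tendsto (fun n => (((Finset.range n).lcm b : ℕ) : ℝ) / (2 : ℝ) ^ (2 ^ n))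
            atTop atTop ∨
         ¬ Tendsto (fun n => ∏ k ∈ Finset.range n, ((b k : ℝ) / (2 : ℝ) ^ (2 ^ k)))
            atTop atTop) :
    Irrational (∑' n, (1 : ℝ) / (b n : ℝ)) := by
  have hlim' : Tendsto (fun n => (b n : ℝ) / t n) atTop (𝓝 1) := hlim
  have hr := b_ratio hlim'
  have key2 : ¬ Tendsto (fun n => (L b n : ℝ) / t n) atTop atTop →
      Irrational (∑' n, (1 : ℝ) / (b n : ℝ)) := by
    intro hno
    refine irrational_two hb hlim' fun δ hδ => frequently_E hb hr ?_ δ hδ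
    intro hT
    apply hno
    have h1 : Tendsto (fun n => ((b n : ℝ) / t n) * ((L b n : ℝ) / (b n : ℝ))) atTop atTop :=
      hlim'.pos_mul_atTop one_pos hT
    refine h1.congr fun n => ?_
    have := t_pos n
    have : (0 : ℝ) < (b n : ℝ) := by exact_mod_cast hb n
    field_simp
  rcases h with h | h | h
  · refine irrational_two hb hlim' fun δ hδ => (h δ hδ).mono fun n hn => ?_
    have hbn : (0 : ℝ) < (b n : ℝ) := by exact_mod_cast hb n
    have hLn : (0 : ℝ) < (L b n : ℝ) := by exact_mod_cast L_pos hb n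
    unfold E
    rw [abs_mul, abs_of_pos (by positivity : (0 : ℝ) < (L b n : ℝ) / (b n : ℝ))]
    exact hn
  · exact key2 h
  · refine key2 fun hT => h ?_
    refine tendsto_atTop_mono (fun n => ?_) hT
    have h1 : ∏ k ∈ Finset.range n, ((b k : ℝ) / (2 : ℝ) ^ (2 ^ k))
        = (P b n : ℝ) / (t n / 2) := by
      rw [Finset.prod_div_distrib]
      congr 1
      · unfold P; push_cast; rfl
      · exact prod_t n
    rw [h1]
    have htp := t_pos n
    have h2 : (L b n : ℝ) ≤ (P b n : ℝ) := by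
      rw [P_eq]
      have : 1 ≤ G b n := G_pos hb n
      exact_mod_cast Nat.le_mul_of_pos_left _ this
    rw [div_le_div_iff₀ htp (by positivity)]
    have h3 : (0 : ℝ) < (P b n : ℝ) := by exact_mod_cast P_pos hb n
    nlinarith

end Pool.Agent.Helper580.Rec
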