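import Pool.Agent.Helper580.Rec.Binom

set_option autoImplicit false
open Filter Topology

namespace Pool.Agent.Helper580.Rec

variable {a : ℕ → ℕ}

theorem rate_to_w' (w : ℕ → ℝ) (hw0 : ∀ n, 0 < w n) (ε : ℕ → ℝ)
    (hrec : ∀ n, w (n + 1) = w n * (1 + ε n)) (e : ℕ) (c : ℝ) (hc : 0 < c) (B : ℕ → ℝ)
    (hCpos : ∀ n : ℕ, 1 ≤ n → (0 : ℝ) < B n)
    (hC : ∀ n : ℕ, 1 ≤ n → B (n + 1) * (n : ℝ) = B n * ((n : ℝ) + c)) (Q : ℝ) (hQpos : 0 < Q)
    (hCle : ∀ n : ℕ, 1 ≤ n → B n ≤ Q * (n : ℝ) ^ (e + 1))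
    (h : Tendsto (fun n : ℕ => (ε n - c / (n : ℝ)) * (n : ℝ) ^ (e + 2)) atTop (𝓝 0)) :
    ∃ κ : ℝ, Tendsto (fun n => w n - κ * B n) atTop (𝓝 0) := by
  set g : ℕ → ℝ := fun n => 1 / (n : ℝ) ^ (e + 1) with hg
  have hgd : ∀ n : ℕ, 1 ≤ n → 1 / (2 ^ (e + 1) * (n : ℝ) ^ (e + 2)) ≤ g n - g (n + 1) := by
    intro n hn
    have hn' : (1 : ℝ) ≤ (n : ℝ) := by exact_mod_cast hn
    have h0 : (0 : ℝ) < (n : ℝ) := by linarith
    have h1 : (n : ℝ) ^ (e + 1) + (n : ℝ) ^ e ≤ ((n : ℝ) + 1) ^ (e + 1) := by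
      have : (n : ℝ) ^ e ≤ ((n : ℝ) + 1) ^ e := pow_le_pow_left₀ h0.le (by linarith) e
      rw [pow_succ, pow_succ]
      nlinarith
    have h2 : ((n : ℝ) + 1) ^ (e + 1) ≤ 2 ^ (e + 1) * (n : ℝ) ^ (e + 1) := by
      rw [← mul_pow]
      exact pow_le_pow_left₀ (by linarith) (by linarith) _
    have h3 : g n - g (n + 1) = (((n : ℝ) + 1) ^ (e + 1) - (n : ℝ) ^ (e + 1)) /
        ((n : ℝ) ^ (e + 1) * ((n : ℝ) + 1) ^ (e + 1)) := by
      simp only [hg]; push_cast; field_simp
    rw [h3, div_le_div_iff₀ (by positivity) (by positivity)]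
    have h4 : (n : ℝ) ^ (e + 1) * ((n : ℝ) + 1) ^ (e + 1)
        ≤ (n : ℝ) ^ (e + 1) * (2 ^ (e + 1) * (n : ℝ) ^ (e + 1)) :=
      mul_le_mul_of_nonneg_left h2 (by positivity)
    have h5 : (n : ℝ) ^ e * (2 ^ (e + 1) * (n : ℝ) ^ (e + 2))
        ≤ (((n : ℝ) + 1) ^ (e + 1) - (n : ℝ) ^ (e + 1)) * (2 ^ (e + 1) * (n : ℝ) ^ (e + 2)) :=
      mul_le_mul_of_nonneg_right (by linarith) (by positivity)
    have h6 : (n : ℝ) ^ e * (2 ^ (e + 1) * (n : ℝ) ^ (e + 2))
        = (n : ℝ) ^ (e + 1) * (2 ^ (e + 1) * (n : ℝ) ^ (e + 1)) := by ring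
    linarith
  have hgpos : ∀ n, 0 ≤ g n := fun n => by simp only [hg]; positivity
  have hg0 : Tendsto g atTop (𝓝 0) := by
    have h1 : Tendsto (fun n : ℕ => (n : ℝ) ^ (e + 1)) atTop atTop :=
      (tendsto_pow_atTop (Nat.succ_ne_zero e)).comp tendsto_natCast_atTop_atTop
    have := h1.const_div_atTop 1
    exact this
  set v : ℕ → ℝ := fun n => w n / B n with hv
  have hvpos : ∀ n, 1 ≤ n → 0 < v n := fun n hn => div_pos (hw0 n) (hCpos n hn)
  have hvrec : ∀ n : ℕ, 1 ≤ n → v (n + 1) - v n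
      = v n * ((ε n - c / (n : ℝ)) * ((n : ℝ) / ((n : ℝ) + c))) := by
    intro n hn
    have h0 : (0 : ℝ) < (n : ℝ) := by exact_mod_cast hn
    have h1 := hCpos n hn
    have h2 := hCpos (n + 1) (by omega)
    have h3 : B (n + 1) = B n * ((n : ℝ) + c) / (n : ℝ) := by
      rw [eq_div_iff h0.ne']; exact hC n hn
    have h4 : (0 : ℝ) < (n : ℝ) + c := by positivity
    simp only [hv]
    rw [hrec n, h3]
    field_simp
    ring
  have hstep : ∀ δ : ℝ, 0 < δ → ∀ᶠ n in atTop, 1 ≤ n ∧
      |v (n + 1) - v n| ≤ v n * (δ * (g n - g (n + 1))) := by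
    intro δ hδ
    have h1 := h.eventually (Metric.ball_mem_nhds (0 : ℝ) (show 0 < δ / 2 ^ (e + 1) by positivity))
    filter_upwards [h1, eventually_ge_atTop 1] with n h1 hn
    refine ⟨hn, ?_⟩
    have h0 : (0 : ℝ) < (n : ℝ) := by exact_mod_cast hn
    rw [dist_zero_right, Real.norm_eq_abs, abs_mul, abs_of_pos (by positivity : (0:ℝ) < (n : ℝ) ^ (e + 2))] at h1
    rw [hvrec n hn, abs_mul, abs_of_pos (hvpos n hn)]
    refine mul_le_mul_of_nonneg_left ?_ (hvpos n hn).le
    rw [abs_mul]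
    have h2 : |(n : ℝ) / ((n : ℝ) + c)| ≤ 1 := by
      rw [abs_of_pos (by positivity), div_le_one (by positivity)]
      linarith
    have h3 : |ε n - c / (n : ℝ)| ≤ δ * (1 / (2 ^ (e + 1) * (n : ℝ) ^ (e + 2))) := by
      have : |ε n - c / (n : ℝ)| ≤ (δ / 2 ^ (e + 1)) / (n : ℝ) ^ (e + 2) := by
        rw [le_div_iff₀ (by positivity)]; exact h1.le
      calc _ ≤ _ := this
        _ = _ := by field_simp
    have h4 := hgd n hn
    calc |ε n - c / (n : ℝ)| * |(n : ℝ) / ((n : ℝ) + c)|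
        ≤ |ε n - c / (n : ℝ)| * 1 := mul_le_mul_of_nonneg_left h2 (abs_nonneg _)
      _ ≤ δ * (1 / (2 ^ (e + 1) * (n : ℝ) ^ (e + 2))) := by linarith
      _ ≤ δ * (g n - g (n + 1)) := mul_le_mul_of_nonneg_left h4 hδ.le
  -- `v` is bounded
  obtain ⟨N, hN⟩ := eventually_atTop.1 (hstep 1 one_pos)
  have hNp : 1 ≤ N := (hN N le_rfl).1
  have hV : ∀ k, v (N + k) ≤ v N * Real.exp (g N - g (N + k)) := by
    intro k
    induction k with
    | zero => simp
    | succ k ih =>
      have h1 := (abs_le.1 (hN (N + k) (by omega)).2).2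
      have h2 : v (N + k + 1) ≤ v (N + k) * (1 + (g (N + k) - g (N + k + 1))) := by linarith
      have h3 : 1 + (g (N + k) - g (N + k + 1)) ≤ Real.exp (g (N + k) - g (N + k + 1)) := by
        rw [add_comm]; exact Real.add_one_le_exp _
      have h4 := hvpos (N + k) (by omega)
      calc v (N + (k + 1)) ≤ v (N + k) * (1 + (g (N + k) - g (N + k + 1))) := h2
        _ ≤ v (N + k) * Real.exp (g (N + k) - g (N + k + 1)) :=
            mul_le_mul_of_nonneg_left h3 h4.le
        _ ≤ (v N * Real.exp (g N - g (N + k))) * Real.exp (g (N + k) - g (N + k + 1)) :=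
            mul_le_mul_of_nonneg_right ih (Real.exp_pos _).le
        _ = v N * Real.exp (g N - g (N + (k + 1))) := by
            rw [mul_assoc, ← Real.exp_add]; congr 2; ring_nf
  set V : ℝ := v N * Real.exp (g N) with hVdef
  have hVpos : 0 < V := mul_pos (hvpos N hNp) (Real.exp_pos _)
  have hVb : ∀ n, N ≤ n → v n ≤ V := by
    intro n hn
    obtain ⟨k, rfl⟩ := Nat.exists_eq_add_of_le hn
    refine (hV k).trans (mul_le_mul_of_nonneg_left ?_ (hvpos N hNp).le)
    exact Real.exp_le_exp.2 (by linarith [hgpos (N + k)])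
  have hdiff : ∀ δ : ℝ, 0 < δ → ∃ M, N ≤ M ∧ ∀ n, M ≤ n → ∀ k, |v (n + k) - v n| ≤ δ * V * g n := by
    intro δ hδ
    obtain ⟨M, hM⟩ := eventually_atTop.1 (hstep δ hδ)
    refine ⟨max M N, le_max_right _ _, fun n hn k => ?_⟩
    have hnM : M ≤ n := (le_max_left _ _).trans hn
    have hnN : N ≤ n := (le_max_right _ _).trans hn
    have h1 : |v (n + k) - v n| ≤ δ * V * (g n - g (n + k)) := by
      induction k with
      | zero => simp
      | succ k ih =>
        have h2 := (hM (n + k) (by omega)).2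
        have h3 := hVb (n + k) (by omega)
        have h5 : 0 ≤ g (n + k) - g (n + k + 1) :=
          le_trans (by positivity) (hgd (n + k) (by omega))
        have h4 : v (n + k) * (δ * (g (n + k) - g (n + k + 1)))
            ≤ V * (δ * (g (n + k) - g (n + k + 1))) :=
          mul_le_mul_of_nonneg_right h3 (mul_nonneg hδ.le h5)
        have h6 := abs_sub_le (v (n + k + 1)) (v (n + k)) (v n)
        rw [← add_assoc]
        nlinarith
    have h2 := hgpos (n + k)
    have h3 : 0 ≤ δ * V := by positivity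
    nlinarith
  have hcau : CauchySeq v := by
    rw [Metric.cauchySeq_iff']
    intro r hr
    obtain ⟨M, hMN, hM⟩ := hdiff 1 one_pos
    obtain ⟨M', hM'⟩ := eventually_atTop.1
      (hg0.eventually (gt_mem_nhds (show (0:ℝ) < r / V by positivity)))
    refine ⟨max M M', fun n hn => ?_⟩
    obtain ⟨k, rfl⟩ := Nat.exists_eq_add_of_le hn
    rw [Real.dist_eq]
    have h1 := hM (max M M') (le_max_left _ _) k
    have h2 := hM' (max M M') (le_max_right _ _)
    rw [lt_div_iff₀ hVpos] at h2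
    linarith
  obtain ⟨κ, hκ⟩ := cauchySeq_tendsto_of_complete hcau
  refine ⟨κ, ?_⟩
  rw [Metric.tendsto_atTop]
  intro r hr
  obtain ⟨M, hMN, hM⟩ := hdiff (r / (2 * (Q * V))) (by positivity)
  refine ⟨M, fun n hn => ?_⟩
  have hn1 : 1 ≤ n := hNp.trans (hMN.trans hn)
  have h0 : (1 : ℝ) ≤ (n : ℝ) := by exact_mod_cast hn1
  have h1 : |κ - v n| ≤ r / (2 * (Q * V)) * V * g n := by
    have ht : Tendsto (fun k => |v (n + k) - v n|) atTop (𝓝 |κ - v n|) := by
      have h2 : Tendsto (fun k => v (n + k)) atTop (𝓝 κ) := by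
        have := hκ.comp (tendsto_add_atTop_nat n)
        refine this.congr fun k => ?_
        simp [add_comm]
      exact (h2.sub_const _).abs
    exact le_of_tendsto' ht (hM n hn)
  have hCp := hCpos n hn1
  have h2 : w n - κ * B n
      = -((κ - v n) * B n) := by
    simp only [hv]; field_simp; ring
  have hCle := hCle n hn1
  rw [dist_zero_right, Real.norm_eq_abs, h2, abs_neg, abs_mul, abs_of_pos hCp]
  have hgn : g n * (n : ℝ) ^ (e + 1) = 1 := by
    simp only [hg]; field_simp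
  calc |κ - v n| * B n
      ≤ (r / (2 * (Q * V)) * V * g n) * (Q * (n : ℝ) ^ (e + 1)) :=
        mul_le_mul h1 hCle hCp.le (le_trans (abs_nonneg _) h1)
    _ = (r / 2) * (g n * (n : ℝ) ^ (e + 1)) := by field_simp
    _ = r / 2 := by rw [hgn, mul_one]
    _ < r := by linarith

/-- the comparison sequence `∏_{1 ≤ k < n} (1 + c/k)` -/
noncomputable def B (c : ℝ) : ℕ → ℝ
  | 0 => 1
  | 1 => 1
  | n + 2 => B c (n + 1) * (1 + c / ((n : ℝ) + 1))

theorem B_pos (c : ℝ) (hc : 0 < c) : ∀ n, 0 < B c n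
  | 0 => one_pos
  | 1 => one_pos
  | n + 2 => mul_pos (B_pos c hc (n + 1)) (by positivity)

theorem B_rec (c : ℝ) (n : ℕ) (hn : 1 ≤ n) :
    B c (n + 1) * (n : ℝ) = B c n * ((n : ℝ) + c) := by
  obtain ⟨m, rfl⟩ : ∃ m, n = m + 1 := ⟨n - 1, by omega⟩
  rw [B]
  push_cast
  field_simp

theorem B_le (c : ℝ) (hc : 0 < c) (e : ℕ) (he : c ≤ (e : ℝ) + 1) (n : ℕ) (hn : 1 ≤ n) :
    B c n ≤ 1 * (n : ℝ) ^ (e + 1) := by
  induction n, hn using Nat.le_induction with
  | base => simp [B]
  | succ n hn ih =>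
    have h0 : (0 : ℝ) < (n : ℝ) := by exact_mod_cast hn
    have h1 := B_rec c n hn
    have h2 : B c (n + 1) = B c n * (1 + c / (n : ℝ)) := by
      field_simp; linarith
    have h3 : 1 + c / (n : ℝ) ≤ (1 + 1 / (n : ℝ)) ^ (e + 1) := by
      have h4 := one_add_mul_le_pow (show (-2 : ℝ) ≤ 1 / (n : ℝ) by
        have : 0 < 1 / (n : ℝ) := by positivity
        linarith) (e + 1)
      have h5 : c / (n : ℝ) ≤ ((e + 1 : ℕ) : ℝ) * (1 / (n : ℝ)) := by
        rw [mul_one_div]; push_cast
        exact div_le_div_of_nonneg_right he h0.le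
      linarith
    rw [h2, one_mul]
    rw [one_mul] at ih
    have h6 : (0 : ℝ) ≤ 1 + c / (n : ℝ) := by positivity
    calc B c n * (1 + c / (n : ℝ)) ≤ (n : ℝ) ^ (e + 1) * (1 + 1 / (n : ℝ)) ^ (e + 1) :=
          mul_le_mul ih h3 h6 (by positivity)
      _ = ((n + 1 : ℕ) : ℝ) ^ (e + 1) := by
          rw [← mul_pow]; congr 1; push_cast; field_simp

/-- no integer sequence is asymptotic to `f` when `f(n+1)(n+s) = f(n)(n+s+c)`, `c > 0` not an
integer -/
theorem no_int (k : ℕ) : ∀ (c s : ℝ) (f : ℕ → ℝ) (_ : (k : ℝ) < c) (_ : c < k + 1) (_ : 0 < s)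
    (_ : ∀ᶠ n in atTop, f n ≠ 0)
    (_ : ∀ᶠ n : ℕ in atTop, f (n + 1) * ((n : ℝ) + s) = f n * ((n : ℝ) + s + c))
    (x : ℕ → ℤ), ¬ Tendsto (fun n => (x n : ℝ) - f n) atTop (𝓝 0) := by
  induction k with
  | zero =>
    intro c s f hc0 hc1 hs hf hrec x hx
    simp only [CharP.cast_eq_zero, zero_add] at hc0 hc1
    obtain ⟨N, hN⟩ := eventually_atTop.1 (hf.and hrec)
    have hsN : ∀ n : ℕ, 0 < (n : ℝ) + s := fun n => by positivity
    -- ratio
    have hr : ∀ n, N ≤ n → f (n + 1) = f n * (1 + c / ((n : ℝ) + s)) := by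
      intro n hn
      have h1 := (hN n hn).2
      have h2 := hsN n
      field_simp
      linarith
    have hfN : 0 < |f N| := abs_pos.2 (hN N le_rfl).1
    -- harmonic sums
    set H : ℕ → ℝ := fun k => ∑ i ∈ Finset.range k, 1 / (((N + i : ℕ) : ℝ) + s) with hH
    have hHtop : Tendsto H atTop atTop := by
      have h1 : ¬ Summable (fun i : ℕ => 1 / (((N + i : ℕ) : ℝ) + s)) := by
        intro hsum
        have h2 : Summable (fun i : ℕ => 1 / ((i : ℝ) + 1)) := by
          refine Summable.of_nonneg_of_le (fun i => by positivity) (fun i => ?_)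
            (hsum.mul_left ((N : ℝ) + s + 1))
          rw [mul_one_div, div_le_div_iff₀ (by positivity) (by positivity)]
          push_cast
          have : (0 : ℝ) ≤ (N : ℝ) := Nat.cast_nonneg N
          have : (0 : ℝ) ≤ (i : ℝ) := Nat.cast_nonneg i
          nlinarith [mul_nonneg ‹(0:ℝ) ≤ (N:ℝ)› ‹(0:ℝ) ≤ (i:ℝ)›, mul_nonneg hs.le ‹(0:ℝ) ≤ (i:ℝ)›]
        exact Real.not_summable_one_div_natCast ((summable_nat_add_iff 1).1 (by simpa using h2))
      exact (not_summable_iff_tendsto_nat_atTop_of_nonneg (fun i => by positivity)).1 h1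
    have hlow : ∀ k, |f N| * (1 + c * H k) ≤ |f (N + k)| := by
      intro k
      induction k with
      | zero => simp [hH]
      | succ k ih =>
        have h1 := hr (N + k) (by omega)
        have h2 := hsN (N + k)
        have h3 : |f (N + k + 1)| = |f (N + k)| * (1 + c / (((N + k : ℕ) : ℝ) + s)) := by
          rw [h1, abs_mul, abs_of_pos (by positivity : (0:ℝ) < 1 + c / (((N + k : ℕ) : ℝ) + s))]
        have h4 : H (k + 1) = H k + 1 / (((N + k : ℕ) : ℝ) + s) := by
          simp only [hH]; rw [Finset.sum_range_succ]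
        have h5 : 0 ≤ H k := Finset.sum_nonneg fun i _ => by positivity
        have h6 : |f N| ≤ |f (N + k)| := by
          have : 0 ≤ |f N| * (c * H k) := by positivity
          linarith
        have h7 : c / (((N + k : ℕ) : ℝ) + s) = c * (1 / (((N + k : ℕ) : ℝ) + s)) := by ring
        have h8 : 0 ≤ c * (1 / (((N + k : ℕ) : ℝ) + s)) := by positivity
        rw [← add_assoc, h3, h4, h7]
        nlinarith
    -- `f (n+1) - f n → 0`
    have hd0 : Tendsto (fun k => |f (N + k + 1) - f (N + k)|) atTop (𝓝 0) := by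
      -- `u k = |f (N+k)| / (N+k+s)` satisfies `u (k+1) = u k * (1 - (1-c)/(N+k+1+s))`
      have hu : ∀ k, |f (N + k)| / (((N + k : ℕ) : ℝ) + s)
          ≤ |f N| / ((N : ℝ) + s) * Real.exp (-((1 - c) * ∑ i ∈ Finset.range k, 1 / (((N + i : ℕ) : ℝ) + s + 1))) := by
        intro k
        induction k with
        | zero => simp
        | succ k ih =>
          have h1 := hr (N + k) (by omega)
          have h2 := hsN (N + k)
          have h3 : |f (N + k + 1)| = |f (N + k)| * (1 + c / (((N + k : ℕ) : ℝ) + s)) := by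
            rw [h1, abs_mul, abs_of_pos (by positivity : (0:ℝ) < 1 + c / (((N + k : ℕ) : ℝ) + s))]
          have h4 : |f (N + k + 1)| / (((N + k + 1 : ℕ) : ℝ) + s)
              = |f (N + k)| / (((N + k : ℕ) : ℝ) + s) *
                (1 - (1 - c) * (1 / (((N + k : ℕ) : ℝ) + s + 1))) := by
            rw [h3]; push_cast at h2 ⊢; field_simp; ring
          have h5 : 1 - (1 - c) * (1 / (((N + k : ℕ) : ℝ) + s + 1))
              ≤ Real.exp (-((1 - c) * (1 / (((N + k : ℕ) : ℝ) + s + 1)))) := by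
            have := Real.add_one_le_exp (-((1 - c) * (1 / (((N + k : ℕ) : ℝ) + s + 1))))
            linarith
          rw [← add_assoc, h4, Finset.sum_range_succ, mul_add, neg_add, Real.exp_add, ← mul_assoc]
          have h6 : 0 ≤ |f (N + k)| / (((N + k : ℕ) : ℝ) + s) := by positivity
          calc _ ≤ |f (N + k)| / (((N + k : ℕ) : ℝ) + s) *
                Real.exp (-((1 - c) * (1 / (((N + k : ℕ) : ℝ) + s + 1)))) :=
                mul_le_mul_of_nonneg_left h5 h6
            _ ≤ _ := mul_le_mul_of_nonneg_right ih (Real.exp_pos _).le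
      have hH1 : Tendsto (fun k => ∑ i ∈ Finset.range k, 1 / (((N + i : ℕ) : ℝ) + s + 1))
          atTop atTop := by
        refine tendsto_atTop_mono (fun k => ?_) (hHtop.const_mul_atTop (show (0:ℝ) < s / (s + 1) by positivity))
        simp only [hH]
        rw [Finset.mul_sum]
        refine Finset.sum_le_sum fun i _ => ?_
        rw [div_mul_div_comm, div_le_div_iff₀ (by positivity) (by positivity)]
        push_cast
        have : (0 : ℝ) ≤ (N : ℝ) := Nat.cast_nonneg N
        have : (0 : ℝ) ≤ (i : ℝ) := Nat.cast_nonneg i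
        nlinarith
      have hexp : Tendsto (fun k => c * (|f N| / ((N : ℝ) + s) *
          Real.exp (-((1 - c) * ∑ i ∈ Finset.range k, 1 / (((N + i : ℕ) : ℝ) + s + 1)))))
          atTop (𝓝 0) := by
        have h1 : Tendsto (fun k => Real.exp (-((1 - c) *
            ∑ i ∈ Finset.range k, 1 / (((N + i : ℕ) : ℝ) + s + 1)))) atTop (𝓝 0) :=
          Real.tendsto_exp_neg_atTop_nhds_zero.comp (hH1.const_mul_atTop (by linarith))
        have := (h1.const_mul (|f N| / ((N : ℝ) + s))).const_mul c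
        simpa using this
      refine squeeze_zero (fun k => abs_nonneg _) (fun k => ?_) hexp
      have h1 := hr (N + k) (by omega)
      have h2 := hsN (N + k)
      have h3 : f (N + k + 1) - f (N + k) = c * (f (N + k) / (((N + k : ℕ) : ℝ) + s)) := by
        rw [h1]; field_simp; ring
      rw [h3, abs_mul, abs_of_pos hc0, abs_div, abs_of_pos h2]
      exact mul_le_mul_of_nonneg_left (hu k) hc0.le
    -- so `x` is eventually constant
    have hx1 : Tendsto (fun k => (x (N + k + 1) : ℝ) - (x (N + k) : ℝ)) atTop (𝓝 0) := by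
      have h1 : Tendsto (fun k => f (N + k + 1) - f (N + k)) atTop (𝓝 0) :=
        (tendsto_zero_iff_abs_tendsto_zero _).2 hd0
      have h2 : Tendsto (fun k => (x (N + k) : ℝ) - f (N + k)) atTop (𝓝 0) := by
        have := hx.comp (tendsto_add_atTop_nat N)
        refine this.congr fun k => ?_
        simp [add_comm]
      have h3 := h2.comp (tendsto_add_atTop_nat 1)
      have := (h3.sub h2).add h1
      simp only [sub_zero, add_zero] at this
      refine this.congr fun k => ?_
      simp only [Function.comp]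
      rw [← add_assoc]
      ring
    obtain ⟨M, hM⟩ := eventually_atTop.1
      (hx1.eventually (Metric.ball_mem_nhds (0 : ℝ) (show (0:ℝ) < 1 by norm_num)))
    have hxc : ∀ k, M ≤ k → x (N + k) = x (N + M) := by
      intro k hk
      induction k, hk using Nat.le_induction with
      | base => rfl
      | succ k hk ih =>
        have := hM k hk
        rw [dist_zero_right, Real.norm_eq_abs] at this
        have h4 : |x (N + k + 1) - x (N + k)| < 1 := by exact_mod_cast this
        have := Int.abs_lt_one_iff.1 h4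
        rw [← add_assoc]
        omega
    have hfb : Tendsto (fun k => |f (N + k)|) atTop atTop := by
      refine tendsto_atTop_mono hlow ?_
      refine Tendsto.const_mul_atTop hfN ?_
      exact tendsto_atTop_add_const_left _ _ (hHtop.const_mul_atTop hc0)
    have h2 : Tendsto (fun k => (x (N + k) : ℝ) - f (N + k)) atTop (𝓝 0) := by
      have := hx.comp (tendsto_add_atTop_nat N)
      refine this.congr fun k => ?_
      simp [add_comm]
    have h5 := (h2.eventually (Metric.ball_mem_nhds (0 : ℝ) (show (0:ℝ) < 1 by norm_num))).and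
      ((hfb.eventually_gt_atTop (|(x (N + M) : ℝ)| + 1)).and (eventually_ge_atTop M))
    obtain ⟨k, h6, h7, h8⟩ := h5.exists
    rw [dist_zero_right, Real.norm_eq_abs, hxc k h8] at h6
    have h9 := abs_sub_abs_le_abs_sub (f (N + k)) (x (N + M) : ℝ)
    rw [abs_sub_comm] at h9
    linarith
  | succ k ih =>
    intro c s f hc0 hc1 hs hf hrec x hx
    push_cast at hc0 hc1
    have hk : (0 : ℝ) ≤ (k : ℝ) := Nat.cast_nonneg k
    refine ih (c - 1) (s + 1) (fun n => f (n + 1) - f n) (by linarith) (by linarith)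
      (by linarith) ?_ ?_ (fun n => x (n + 1) - x n) ?_
    · filter_upwards [hf, hrec] with n h1 h2
      intro h3
      have h4 : f n * c = 0 := by
        have : f (n + 1) = f n := by linarith
        rw [this] at h2; linarith
      rcases mul_eq_zero.1 h4 with h | h
      · exact h1 h
      · linarith
    · have hrec1 := (tendsto_add_atTop_nat 1).eventually hrec
      filter_upwards [hrec, hrec1] with n h1 h2
      push_cast at h2
      have hp : (0 : ℝ) < (n : ℝ) + s := by positivity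
      have e1 : (f (n + 1) - f n) * ((n : ℝ) + s) = f n * c := by linarith
      have e2 : (f (n + 1 + 1) - f (n + 1)) * ((n : ℝ) + 1 + s) = f (n + 1) * c := by linarith
      have e3 : ((f (n + 1 + 1) - f (n + 1)) * ((n : ℝ) + (s + 1))) * ((n : ℝ) + s)
          = ((f (n + 1) - f n) * ((n : ℝ) + (s + 1) + (c - 1))) * ((n : ℝ) + s) := by
        calc _ = (f (n + 1) * ((n : ℝ) + s)) * c := by
              have : (n : ℝ) + (s + 1) = (n : ℝ) + 1 + s := by ring
              rw [this, e2]; ring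
          _ = f n * ((n : ℝ) + s + c) * c := by rw [h1]
          _ = (f n * c) * ((n : ℝ) + s + c) := by ring
          _ = _ := by rw [← e1]; ring
      exact mul_right_cancel₀ hp.ne' e3
    · have := (hx.comp (tendsto_add_atTop_nat 1)).sub hx
      rw [sub_zero] at this
      refine this.congr fun n => ?_
      simp only [Function.comp]
      push_cast
      ring

/-- `a_n² / a_{n+1} = 1 + c/n + o(n^{-d-1})`, `0 < c ≤ d`, forces irrationality -/
theorem real_rate (ha : ∀ n, 0 < a n)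
    (hinf : Tendsto (fun n => (a n : ℝ)) atTop atTop) (c : ℝ) (hc : 0 < c) (d : ℕ)
    (hcd : c ≤ (d : ℝ))
    (h : Tendsto (fun n : ℕ => ((a n : ℝ) ^ 2 / (a (n + 1) : ℝ) - 1 - c / (n : ℝ)) *
      (n : ℝ) ^ (d + 1)) atTop (𝓝 0)) :
    Irrational (∑' n, (1 : ℝ) / (a n : ℝ)) := by
  by_cases hint : ∃ m : ℕ, c = m
  · obtain ⟨m, rfl⟩ := hint
    have hm1 : 1 ≤ m := by exact_mod_cast hc
    have hmd : m ≤ d := by exact_mod_cast hcd
    refine rate_irrational ha hinf m hm1 ?_
    refine squeeze_zero_norm' ?_ (by simpa using h.norm)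
    filter_upwards [eventually_ge_atTop 1] with n hn
    have hn' : (1 : ℝ) ≤ (n : ℝ) := by exact_mod_cast hn
    have h1 : (n : ℝ) ^ (m + 1) ≤ (n : ℝ) ^ (d + 1) := pow_le_pow_right₀ hn' (by omega)
    rw [Real.norm_eq_abs, abs_mul, abs_of_pos (by positivity : (0:ℝ) < (n : ℝ) ^ (m + 1))]
    exact mul_le_mul_of_nonneg_left h1 (abs_nonneg _)
  have h1 : Tendsto (fun n : ℕ => ((a n : ℝ) ^ 2 / (a (n + 1) : ℝ) - 1 - c / (n : ℝ)))
      atTop (𝓝 0) := by
    refine squeeze_zero_norm' ?_ (by simpa using h.norm)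
    filter_upwards [eventually_ge_atTop 1] with n hn
    have hn' : (1 : ℝ) ≤ (n : ℝ) := by exact_mod_cast hn
    rw [Real.norm_eq_abs]
    exact le_mul_of_one_le_right (abs_nonneg _) (one_le_pow₀ hn')
  have hinv : Tendsto (fun n => (a n : ℝ) ^ 2 / (a (n + 1) : ℝ)) atTop (𝓝 1) := by
    have h2 : Tendsto (fun n : ℕ => c / (n : ℝ)) atTop (𝓝 0) :=
      tendsto_const_div_atTop_nhds_zero_nat _
    have h3 := (h1.add h2).add_const 1
    simp only [zero_add, add_zero] at h3
    refine h3.congr fun n => ?_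
    ring
  have hlim : Tendsto (fun n => (a (n + 1) : ℝ) / (a n : ℝ) ^ 2) atTop (𝓝 1) := by
    have := hinv.inv₀ one_ne_zero
    simpa [inv_div] using this
  by_contra hirr
  obtain ⟨p, q, hq, hsum⟩ := exists_pq (summable_of ha hlim hinf) hirr
  have hd : 1 ≤ d := by
    rcases Nat.eq_zero_or_pos d with rfl | hd
    · simp at hcd; linarith
    · exact hd
  obtain ⟨e, rfl⟩ : ∃ e, d = e + 1 := ⟨d - 1, by omega⟩
  have hA : ∀ n, (0 : ℝ) < (a n : ℝ) := fun n => by exact_mod_cast ha n
  have hPp : ∀ n, (0 : ℝ) < (P a n : ℝ) := fun n => by exact_mod_cast P_pos ha n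
  obtain ⟨κ, hκ⟩ := rate_to_w' (fun n => (P a n : ℝ) / (a n : ℝ))
    (fun n => div_pos (hPp n) (hA n)) (fun n => (a n : ℝ) ^ 2 / (a (n + 1) : ℝ) - 1)
    (fun n => by
      have h1 := hA n
      have h2 := hA (n + 1)
      rw [P_succ]; push_cast; field_simp; ring) e c hc (B c) (fun n _ => B_pos c hc n)
    (B_rec c) 1 one_pos (B_le c hc e (by push_cast at hcd; exact hcd)) h
  rcases eq_or_ne κ 0 with rfl | hκ0
  · exact w_not_zero ha hlim hinf p q hq hsum (by simpa using hκ)
  have hpq := hpq_of hq hsum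
  have hX := X_sub ha hlim hinf hsum.summable p q hq hpq
  have hq' : (0 : ℝ) < (q : ℝ) := by exact_mod_cast hq
  have h2 : Tendsto (fun n => (X a p q n : ℝ) - (q * κ) * B c n) atTop (𝓝 0) := by
    have := hX.add (hκ.const_mul (q : ℝ))
    simp only [mul_zero, add_zero] at this
    refine this.congr fun n => ?_
    ring
  have hfl1 : ((⌊c⌋₊ : ℕ) : ℝ) < c := by
    refine lt_of_le_of_ne (Nat.floor_le hc.le) fun h => hint ⟨_, h.symm⟩
  have hfl2 : c < ((⌊c⌋₊ : ℕ) : ℝ) + 1 := Nat.lt_floor_add_one c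
  refine no_int ⌊c⌋₊ c 1 (fun n => (q * κ) * B c (n + 1)) hfl1 hfl2 one_pos ?_ ?_
    (fun n => X a p q (n + 1)) ?_
  · exact Eventually.of_forall fun n => mul_ne_zero (mul_ne_zero hq'.ne' hκ0) (B_pos c hc _).ne'
  · refine Eventually.of_forall fun n => ?_
    have := B_rec c (n + 1) (by omega)
    push_cast at this
    linear_combination (q * κ) * this
  · exact h2.comp (tendsto_add_atTop_nat 1)


end Pool.Agent.Helper580.Rec
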