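import Pool.Agent.Helper580.Rec.Core

set_option autoImplicit false
open Filter Topology

namespace Pool.Agent.Helper580.Rec

variable {a : ℕ → ℕ}

/-! ### Windows -/

theorem r_ge (ha : ∀ n, 0 < a n) (hs : Summable fun n => (1 : ℝ) / (a n : ℝ)) (n : ℕ) :
    1 / (a n : ℝ) ≤ r a n := by
  rw [r_succ hs n]
  have := r_pos ha hs (n + 1)
  linarith

/-- for a sequence not eventually satisfying the recursion, `X_n` is unbounded -/
theorem X_unbounded (ha : ∀ n, 0 < a n)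
    (hlim : Tendsto (fun n => (a (n + 1) : ℝ) / (a n : ℝ) ^ 2) atTop (𝓝 1))
    (hinf : Tendsto (fun n => (a n : ℝ)) atTop atTop) (p q : ℤ) (hq : 0 < q)
    (hsum : HasSum (fun n => (1 : ℝ) / (a n : ℝ)) ((p : ℝ) / q))
    (hns : ¬ ∀ᶠ n in atTop, a (n + 1) = a n ^ 2 - a n + 1) (B : ℤ) :
    ∃ᶠ n in atTop, B ≤ X a p q n := by
  have hT : Tendsto (fun n => (L a n : ℝ) / (a n : ℝ)) atTop atTop := by
    by_contra hno
    exact hns (main_lcm ha hlim hinf p q hq hsum hno)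
  refine Eventually.frequently ?_
  filter_upwards [hT.eventually_ge_atTop (B : ℝ)] with n hn
  have hpq := hpq_of hq hsum
  have hXn := X_eq ha hsum.summable p q hpq n
  have hr := r_ge ha hsum.summable n
  have hq1 : (1 : ℝ) ≤ (q : ℝ) := by exact_mod_cast hq
  have hP : (0 : ℝ) < (P a n : ℝ) := by exact_mod_cast P_pos ha n
  have hA : (0 : ℝ) < (a n : ℝ) := by exact_mod_cast ha n
  have hLP : (L a n : ℝ) ≤ (P a n : ℝ) := by
    rw [P_eq]
    exact_mod_cast Nat.le_mul_of_pos_left _ (G_pos ha n)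
  have h1 : (L a n : ℝ) / (a n : ℝ) ≤ (X a p q n : ℝ) := by
    rw [hXn]
    calc (L a n : ℝ) / (a n : ℝ) ≤ (P a n : ℝ) / (a n : ℝ) := by gcongr
      _ = 1 * (P a n : ℝ) * (1 / (a n : ℝ)) := by ring
      _ ≤ (q : ℝ) * (P a n : ℝ) * r a n := by gcongr
  exact_mod_cast hn.trans h1

theorem crossing {x : ℕ → ℤ} (hx : ∀ B : ℤ, ∃ᶠ n in atTop, B ≤ x n) (n0 : ℕ) (T : ℤ)
    (h0 : x n0 < T) : ∃ m, n0 ≤ m ∧ x m < T ∧ T ≤ x (m + 1) := by
  by_contra hcon
  push Not at hcon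
  have h : ∀ k, x (n0 + k) < T := by
    intro k
    induction k with
    | zero => simpa using h0
    | succ k ih => exact hcon (n0 + k) (by omega) ih
  obtain ⟨n, hn, hn0⟩ := ((hx T).and_eventually (eventually_ge_atTop n0)).exists
  obtain ⟨k, rfl⟩ := Nat.exists_eq_add_of_le hn0
  exact absurd (h k) (not_lt.2 hn)

theorem big_step {x : ℕ → ℤ} (hx : ∀ B : ℤ, ∃ᶠ n in atTop, B ≤ x n) (d : ℤ) (n0 : ℕ)
    (hd : ∀ m, n0 ≤ m → d ∣ x m) (T : ℤ) (hT : x n0 < T) :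
    ∃ m, n0 ≤ m ∧ x m < T ∧ T ≤ x (m + 1) ∧ d ≤ x (m + 1) - x m := by
  obtain ⟨m, hm, h1, h2⟩ := crossing hx n0 T hT
  exact ⟨m, hm, h1, h2, Int.le_of_dvd (by omega) (dvd_sub (hd _ (by omega)) (hd _ hm))⟩

theorem dvd_later (a : ℕ → ℕ) (p q : ℤ) (d : ℤ) (n : ℕ) (h1 : d ∣ X a p q n)
    (h2 : d ∣ q * (P a n : ℤ)) : ∀ m, n ≤ m → d ∣ X a p q m := by
  have h : ∀ m, n ≤ m → d ∣ X a p q m ∧ d ∣ q * (P a m : ℤ) := by
    intro m hm
    induction m, hm using Nat.le_induction with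
    | base => exact ⟨h1, h2⟩
    | succ m hm ih =>
      refine ⟨dvd_sub (ih.1.mul_left _) ih.2, ?_⟩
      rw [P_succ]; push_cast; rw [← mul_assoc]; exact ih.2.mul_right _
  exact fun m hm => (h m hm).1

theorem window_core (p q : ℤ) (hx : ∀ B : ℤ, ∃ᶠ n in atTop, B ≤ X a p q n)
    (ha : ∀ n, 0 < a n) (K k0 R : ℕ) (hk0 : ∀ k, k0 ≤ k → K < a k)
    (hR : k0 + K + Nat.log 2 K + 1 ≤ R) (T : ℤ) (hT : X a p q R < T) :
    ∃ m, R ≤ m ∧ X a p q m < T + P a R + K ∧ T ≤ X a p q (m + 1) ∧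
      (K : ℤ) < X a p q (m + 1) - X a p q m := by
  have hPR : 0 < P a R := P_pos ha R
  rcases lt_or_ge K (G a R) with hG | hG
  · have hd : ∀ m, R ≤ m → (G a R : ℤ) ∣ X a p q m := by
      intro m hm
      have h1 : G a R ∣ G a m := by
        induction m, hm using Nat.le_induction with
        | base => exact dvd_rfl
        | succ m _ ih => exact ih.trans (G_dvd_succ a m)
      exact dvd_trans (by exact_mod_cast h1) (G_dvd_X a p q m)
    obtain ⟨m, hm, h1, h2, h3⟩ := big_step hx (G a R : ℤ) R hd T hT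
    exact ⟨m, hm, by omega, h2, by omega⟩
  · have hbad : (bad a R).card ≤ Nat.log 2 K :=
      Nat.le_log_of_pow_le (by norm_num) ((two_pow_bad ha R).trans hG)
    -- the good indices
    have hcard : K ≤ ((Finset.Ico k0 R).filter fun k => Nat.Coprime (a k) (P a k)).card := by
      have h1 := Finset.card_filter_add_card_filter_not (s := Finset.Ico k0 R)
        (fun k => Nat.Coprime (a k) (P a k))
      have h2 : ((Finset.Ico k0 R).filter fun k => ¬ Nat.Coprime (a k) (P a k)).card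
          ≤ (bad a R).card := by
        apply Finset.card_le_card
        intro k hk
        rw [Finset.mem_filter, Finset.mem_Ico] at hk
        rw [bad, Finset.mem_filter, Finset.mem_range]
        exact ⟨hk.1.2, hk.2⟩
      rw [Nat.card_Ico] at h1
      omega
    obtain ⟨S, hS, hSK⟩ := Finset.exists_subset_card_eq hcard
    let f : Fin K → ℕ := fun i => (S.orderEmbOfFin hSK i : ℕ)
    have hfS : ∀ i, f i ∈ S := fun i => Finset.orderEmbOfFin_mem S hSK i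
    have hfinj : ∀ i j, i < j → f i < f j := fun i j hij => by
      exact (S.orderEmbOfFin hSK).strictMono hij
    have hf1 : ∀ i, k0 ≤ f i ∧ f i < R ∧ Nat.Coprime (a (f i)) (P a (f i)) := by
      intro i
      have := hS (hfS i)
      rw [Finset.mem_filter, Finset.mem_Ico] at this
      exact ⟨this.1.1, this.1.2, this.2⟩
    have hdvdP : ∀ k n, k < n → a k ∣ P a n := fun k n hkn =>
      Finset.dvd_prod_of_mem a (Finset.mem_range.2 hkn)
    have hcop : ∀ i j, i < j → Nat.Coprime (a (f i)) (a (f j)) := by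
      intro i j hij
      exact (Nat.Coprime.coprime_dvd_right (hdvdP _ _ (hfinj i j hij)) (hf1 j).2.2).symm
    have hpw : Set.Pairwise (↑(Finset.univ : Finset (Fin K)))
        (Function.onFun Nat.Coprime fun i => a (f i)) := by
      intro i _ j _ hij
      rcases lt_or_gt_of_ne hij with h | h
      · exact hcop i j h
      · exact (hcop j i h).symm
    obtain ⟨w0, hw0⟩ := Nat.chineseRemainderOfFinset (fun i : Fin K => (i : ℕ) * (a (f i) - 1))
      (fun i => a (f i)) Finset.univ (fun i _ => (ha (f i)).ne') hpw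
    have hw : ∀ i : Fin K, (a (f i) : ℤ) ∣ (w0 : ℤ) + (i : ℕ) := by
      intro i
      have h1 := (hw0 i (Finset.mem_univ i)).add_right (i : ℕ)
      have h2 : (i : ℕ) * (a (f i) - 1) + (i : ℕ) = a (f i) * (i : ℕ) := by
        have := ha (f i)
        obtain ⟨b, hb⟩ : ∃ b, a (f i) = b + 1 := ⟨a (f i) - 1, by omega⟩
        rw [hb]; simp; ring
      rw [h2] at h1
      have h3 : a (f i) ∣ w0 + (i : ℕ) := by
        rw [Nat.ModEq.dvd_iff h1 dvd_rfl]
        exact Dvd.intro _ rfl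
      exact_mod_cast h3
    have hPR' : (0 : ℤ) < (P a R : ℤ) := by exact_mod_cast hPR
    set W : ℤ := T + ((w0 : ℤ) - T) % (P a R : ℤ) with hW
    have hW1 : T ≤ W := by
      have := Int.emod_nonneg ((w0 : ℤ) - T) hPR'.ne'
      omega
    have hW2 : W < T + P a R := by
      have := Int.emod_lt_of_pos ((w0 : ℤ) - T) hPR'
      omega
    have hWd : ∀ i : Fin K, (a (f i) : ℤ) ∣ W + (i : ℕ) := by
      intro i
      have h1 : W + (i : ℕ) = ((w0 : ℤ) + (i : ℕ)) - (P a R : ℤ) * (((w0 : ℤ) - T) / (P a R : ℤ)) := by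
        have := Int.emod_add_mul_ediv ((w0 : ℤ) - T) (P a R : ℤ)
        rw [hW]; linarith
      rw [h1]
      refine dvd_sub (hw i) (Dvd.dvd.mul_right ?_ _)
      exact_mod_cast hdvdP _ _ (hf1 i).2.1
    obtain ⟨m, hm, h1, h2⟩ := crossing hx R W (lt_of_lt_of_le hT hW1)
    rcases lt_or_ge (X a p q (m + 1)) (W + K) with h3 | h3
    · -- `X_{m+1} = W + i`
      obtain ⟨i, hi⟩ : ∃ i : ℕ, X a p q (m + 1) = W + (i : ℕ) :=
        ⟨(X a p q (m + 1) - W).toNat, by rw [Int.toNat_of_nonneg (by omega)]; ring⟩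
      have hiK : i < K := by rw [hi] at h3; omega
      have hdX : (a (f ⟨i, hiK⟩) : ℤ) ∣ X a p q (m + 1) := by
        rw [hi]; exact hWd ⟨i, hiK⟩
      have hdP : (a (f ⟨i, hiK⟩) : ℤ) ∣ q * (P a (m + 1) : ℤ) := by
        refine Dvd.dvd.mul_left ?_ q
        exact_mod_cast hdvdP _ _ (lt_of_lt_of_le (hf1 ⟨i, hiK⟩).2.1 (by omega))
      have hlater := dvd_later a p q _ (m + 1) hdX hdP
      obtain ⟨m', hm', e1, e2, e3⟩ := big_step hx _ (m + 1) hlater (X a p q (m + 1) + 1)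
        (by omega)
      have hbig := hk0 (f ⟨i, hiK⟩) (hf1 ⟨i, hiK⟩).1
      refine ⟨m', by omega, by omega, by omega, ?_⟩
      have : (K : ℤ) < (a (f ⟨i, hiK⟩) : ℤ) := by exact_mod_cast hbig
      omega
    · exact ⟨m, hm, by omega, by omega, by omega⟩

/-- `X_n - q P_n / a_n → 0` -/
theorem X_sub (ha : ∀ n, 0 < a n)
    (hlim : Tendsto (fun n => (a (n + 1) : ℝ) / (a n : ℝ) ^ 2) atTop (𝓝 1))
    (hinf : Tendsto (fun n => (a n : ℝ)) atTop atTop)
    (hs : Summable fun n => (1 : ℝ) / (a n : ℝ)) (p q : ℤ)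
    (hq : 0 < q) (hpq : (q : ℝ) * r a 0 = p) :
    Tendsto (fun n => (X a p q n : ℝ) - q * ((P a n : ℝ) / (a n : ℝ))) atTop (𝓝 0) := by
  have hz := (z_tendsto ha hlim hinf).const_mul (4 * (q : ℝ))
  rw [mul_zero] at hz
  refine squeeze_zero_norm' ?_ hz
  filter_upwards [ar_bound ha hlim hinf] with n h1
  have hp : (0 : ℝ) < (a n : ℝ) := by exact_mod_cast ha n
  have hPn : (0 : ℝ) < (P a n : ℝ) := by exact_mod_cast P_pos ha n
  have hq' : (0 : ℝ) < (q : ℝ) := by exact_mod_cast hq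
  have hid : (X a p q n : ℝ) - q * ((P a n : ℝ) / (a n : ℝ))
      = q * ((P a n : ℝ) / (a n : ℝ)) * ((a n : ℝ) * r a n - 1) := by
    rw [X_eq ha hs p q hpq n]
    field_simp
  rw [hid, Real.norm_eq_abs, abs_mul,
    abs_of_pos (by positivity : (0:ℝ) < q * ((P a n : ℝ) / (a n : ℝ))),
    abs_of_nonneg (by linarith [h1.1])]
  calc q * ((P a n : ℝ) / (a n : ℝ)) * ((a n : ℝ) * r a n - 1)
      ≤ q * ((P a n : ℝ) / (a n : ℝ)) * (4 / (a n : ℝ)) :=
        mul_le_mul_of_nonneg_left (by linarith [h1.2]) (by positivity)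
    _ = 4 * (q : ℝ) * ((P a n : ℝ) / (a n : ℝ) ^ 2) := by field_simp

theorem growth_up (ha : ∀ n, 0 < a n)
    (hlim : Tendsto (fun n => (a (n + 1) : ℝ) / (a n : ℝ) ^ 2) atTop (𝓝 1)) :
    ∃ N c : ℕ, ∀ n, N ≤ n → 2 * a n ≤ 2 ^ 2 ^ (n + c) ∧ P a n ≤ 2 ^ 2 ^ (n + c) := by
  obtain ⟨N, hN⟩ := eventually_atTop.1 (growth hlim ha)
  have hup : ∀ n, N ≤ n → a (n + 1) ≤ 2 * a n ^ 2 := fun n hn => by
    exact_mod_cast (hN n hn).2
  refine ⟨N, 2 * a N + P a N, fun n hn => ?_⟩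
  set c := 2 * a N + P a N with hc
  induction n, hn using Nat.le_induction with
  | base =>
    have h1 : c < 2 ^ 2 ^ (N + c) := by
      calc c < 2 ^ c := Nat.lt_two_pow_self
        _ ≤ 2 ^ (N + c) := Nat.pow_le_pow_right (by norm_num) (by omega)
        _ < 2 ^ 2 ^ (N + c) := Nat.lt_two_pow_self
    omega
  | succ n hn ih =>
    have e : 2 ^ 2 ^ (n + 1 + c) = (2 ^ 2 ^ (n + c)) * (2 ^ 2 ^ (n + c)) := by
      rw [← pow_add, ← two_mul, ← pow_succ', show n + 1 + c = n + c + 1 by ring]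
    rw [e, P_succ]
    have h1 := hup n hn
    constructor
    · calc 2 * a (n + 1) ≤ 2 * (2 * a n ^ 2) := by omega
        _ = (2 * a n) * (2 * a n) := by ring
        _ ≤ _ := Nat.mul_le_mul ih.1 ih.1
    · refine Nat.mul_le_mul ih.2 ?_
      have := ih.1
      omega

theorem growth_low (ha : ∀ n, 0 < a n)
    (hlim : Tendsto (fun n => (a (n + 1) : ℝ) / (a n : ℝ) ^ 2) atTop (𝓝 1))
    (hinf : Tendsto (fun n => (a n : ℝ)) atTop atTop) :
    ∃ N : ℕ, ∀ k, 2 ^ (k + 1) ≤ a (N + k) := by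
  obtain ⟨N, hN⟩ := eventually_atTop.1 ((growth hlim ha).and (hinf.eventually_ge_atTop 4))
  refine ⟨N, fun k => ?_⟩
  induction k with
  | zero =>
    have h := (hN N le_rfl).2
    have h' : 4 ≤ a N := by exact_mod_cast h
    simp; omega
  | succ k ih =>
    have h1 := (hN (N + k) (by omega)).1.1
    have h4 := (hN (N + k) (by omega)).2
    have h2 : (2 : ℝ) * (a (N + k) : ℝ) ≤ (a (N + k + 1) : ℝ) := by nlinarith
    have h3 : 2 * a (N + k) ≤ a (N + k + 1) := by exact_mod_cast h2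
    rw [pow_succ, ← add_assoc]
    omega

theorem log_small (δ : ℝ) (hδ : 0 < δ) (C : ℝ) :
    ∀ᶠ K : ℕ in atTop, (K : ℝ) + 2 * (Nat.log 2 K : ℝ) + C ≤ (1 + δ) * K := by
  have hl2 : 0 < Real.log 2 := Real.log_pos (by norm_num)
  have h1 := tendsto_natCast_atTop_atTop (R := ℝ) |>.eventually
    (Real.isLittleO_log_id_atTop.def (show 0 < δ * Real.log 2 / 4 by positivity))
  have h2 : ∀ᶠ K : ℕ in atTop, 2 * C / δ ≤ (K : ℝ) :=
    tendsto_natCast_atTop_atTop.eventually_ge_atTop _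
  filter_upwards [h1, h2, eventually_ge_atTop 1] with K h1 h2 h3
  have hK : (1 : ℝ) ≤ (K : ℝ) := by exact_mod_cast h3
  rw [Real.norm_eq_abs, abs_of_nonneg (Real.log_nonneg hK), id, Real.norm_eq_abs,
    abs_of_nonneg (by linarith)] at h1
  have h4 : (Nat.log 2 K : ℝ) ≤ Real.logb 2 K := by
    have := Real.natLog_le_logb K 2
    exact_mod_cast this
  have h5 : Real.logb 2 K ≤ δ / 4 * K := by
    rw [Real.logb, div_le_iff₀ hl2]
    linarith
  rw [div_le_iff₀ hδ] at h2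
  nlinarith

/-- **Window theorem.** -/
theorem window (ha : ∀ n, 0 < a n)
    (hlim : Tendsto (fun n => (a (n + 1) : ℝ) / (a n : ℝ) ^ 2) atTop (𝓝 1))
    (hinf : Tendsto (fun n => (a n : ℝ)) atTop atTop) (p q : ℤ) (hq : 0 < q)
    (hsum : HasSum (fun n => (1 : ℝ) / (a n : ℝ)) ((p : ℝ) / q))
    (hns : ¬ ∀ᶠ n in atTop, a (n + 1) = a n ^ 2 - a n + 1) (δ : ℝ) (hδ : 0 < δ) :
    ∃ K₀ : ℕ, ∀ K : ℕ, K₀ ≤ K → ∀ T : ℝ, (2 : ℝ) ^ ((2 : ℝ) ^ ((1 + δ) * K)) ≤ T →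
      ∃ n, (P a n : ℝ) / (a n : ℝ) < T + (2 : ℝ) ^ ((2 : ℝ) ^ ((1 + δ) * K)) ∧
        T < (P a (n + 1) : ℝ) / (a (n + 1) : ℝ) ∧ (K : ℝ) / q ≤ D a n := by
  have hpq := hpq_of hq hsum
  have hq1 : (1 : ℝ) ≤ (q : ℝ) := by exact_mod_cast hq
  obtain ⟨N1, hN1⟩ := growth_low ha hlim hinf
  obtain ⟨N2, c, hN2⟩ := growth_up ha hlim
  obtain ⟨N3, hN3⟩ := eventually_atTop.1 ((X_sub ha hlim hinf hsum.summable p q hq hpq).eventually
    (Metric.ball_mem_nhds (0 : ℝ) (show (0:ℝ) < 1 / 2 by norm_num)))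
  obtain ⟨K₀, hK₀⟩ := eventually_atTop.1 (log_small δ hδ ((N1 + N2 + N3 + 4 + c + 1 : ℕ) : ℝ))
  refine ⟨K₀, fun K hK T hT => ?_⟩
  set Z : ℝ := (2 : ℝ) ^ ((2 : ℝ) ^ ((1 + δ) * K)) with hZ
  set R : ℕ := N1 + N2 + N3 + K + 2 * Nat.log 2 K + 4 with hR
  have hw : ∀ n, N3 ≤ n → |(X a p q n : ℝ) - q * ((P a n : ℝ) / (a n : ℝ))| < 1 / 2 := by
    intro n hn
    have := hN3 n hn
    rwa [dist_zero_right, Real.norm_eq_abs] at this
  have hk0 : ∀ k, N1 + Nat.log 2 K ≤ k → K < a k := by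
    intro k hk
    obtain ⟨j, rfl⟩ := Nat.exists_eq_add_of_le (show N1 ≤ k by omega)
    have h1 : K < 2 ^ (Nat.log 2 K + 1) := Nat.lt_pow_succ_log_self (by norm_num) K
    have h2 : 2 ^ (Nat.log 2 K + 1) ≤ 2 ^ (j + 1) := Nat.pow_le_pow_right (by norm_num) (by omega)
    exact lt_of_lt_of_le h1 (h2.trans (hN1 j))
  have hPR : ((P a R : ℕ) : ℝ) + K + 4 ≤ Z := by
    have h1 : P a R ≤ 2 ^ 2 ^ (R + c) := (hN2 R (by omega)).2
    have h2 : K + 4 ≤ 2 ^ 2 ^ (R + c) := by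
      have e1 : R + c < 2 ^ (R + c) := Nat.lt_two_pow_self
      have e2 : 2 ^ (R + c) < 2 ^ 2 ^ (R + c) := Nat.lt_two_pow_self
      omega
    have h3 : P a R + K + 4 ≤ 2 ^ 2 ^ (R + c + 1) := by
      have e : 2 ^ 2 ^ (R + c + 1) = (2 ^ 2 ^ (R + c)) * (2 ^ 2 ^ (R + c)) := by
        rw [← pow_add, ← two_mul, ← pow_succ']
      rw [e]
      have e2 : 2 ≤ 2 ^ 2 ^ (R + c) := by omega
      nlinarith
    have h4 : ((P a R + K + 4 : ℕ) : ℝ) ≤ ((2 ^ 2 ^ (R + c + 1) : ℕ) : ℝ) := by exact_mod_cast h3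
    have h5 : ((2 ^ 2 ^ (R + c + 1) : ℕ) : ℝ) = (2 : ℝ) ^ ((2 : ℝ) ^ ((R + c + 1 : ℕ) : ℝ)) := by
      rw [Real.rpow_natCast]
      have : ((2 : ℝ) ^ (R + c + 1)) = ((2 ^ (R + c + 1) : ℕ) : ℝ) := by push_cast; rfl
      rw [this, Real.rpow_natCast]
      push_cast; rfl
    have h6 : ((R + c + 1 : ℕ) : ℝ) ≤ (1 + δ) * K := by
      have := hK₀ K hK
      rw [hR]
      push_cast at this ⊢
      linarith
    have h7 : (2 : ℝ) ^ ((2 : ℝ) ^ ((R + c + 1 : ℕ) : ℝ)) ≤ Z := by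
      rw [hZ]
      apply Real.rpow_le_rpow_of_exponent_le (by norm_num)
      exact Real.rpow_le_rpow_of_exponent_le (by norm_num) h6
    push_cast at h4
    push_cast at h5
    push_cast at h7
    linarith
  have hPR0 : (0 : ℝ) < (P a R : ℝ) := by exact_mod_cast P_pos ha R
  have hZT : Z ≤ T := hT
  have hceil1 := Int.le_ceil ((q : ℝ) * T)
  have hceil2 := Int.ceil_lt_add_one ((q : ℝ) * T)
  have hXR : X a p q R < ⌈(q : ℝ) * T⌉ + 1 := by
    have h1 := (abs_lt.1 (hw R (by omega))).2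
    have h2 : (P a R : ℝ) / (a R : ℝ) ≤ (P a R : ℝ) := by
      have : (1 : ℝ) ≤ (a R : ℝ) := by exact_mod_cast ha R
      exact div_le_self hPR0.le this
    have h3 : (q : ℝ) * ((P a R : ℝ) / (a R : ℝ)) ≤ q * (T - 4) := by
      apply mul_le_mul_of_nonneg_left _ (by linarith)
      have : (0 : ℝ) ≤ (K : ℝ) := Nat.cast_nonneg K
      linarith
    have h4 : (X a p q R : ℝ) < ((⌈(q : ℝ) * T⌉ + 1 : ℤ) : ℝ) := by
      push_cast
      nlinarith
    exact_mod_cast h4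
  obtain ⟨m, hm, e1, e2, e3⟩ := window_core p q (X_unbounded ha hlim hinf p q hq hsum hns) ha K
    (N1 + Nat.log 2 K) R hk0 (by omega) (⌈(q : ℝ) * T⌉ + 1) hXR
  have e1' : (X a p q m : ℝ) < (⌈(q : ℝ) * T⌉ : ℝ) + 1 + P a R + K := by exact_mod_cast e1
  have e2' : (⌈(q : ℝ) * T⌉ : ℝ) + 1 ≤ (X a p q (m + 1) : ℝ) := by exact_mod_cast e2
  have e3' : (K : ℝ) + 1 ≤ (X a p q (m + 1) : ℝ) - (X a p q m : ℝ) := by exact_mod_cast e3
  have hwm := abs_lt.1 (hw m (by omega))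
  have hwm1 := abs_lt.1 (hw (m + 1) (by omega))
  have hDm : D a m = (P a (m + 1) : ℝ) / (a (m + 1) : ℝ) - (P a m : ℝ) / (a m : ℝ) := by
    have h1 : (0 : ℝ) < (a m : ℝ) := by exact_mod_cast ha m
    have h2 : (0 : ℝ) < (a (m + 1) : ℝ) := by exact_mod_cast ha (m + 1)
    unfold D
    rw [P_succ]; push_cast; field_simp
  refine ⟨m, ?_, ?_, ?_⟩
  · have h1 : (q : ℝ) * ((P a m : ℝ) / (a m : ℝ)) < q * T + Z := by linarith [hwm.1]
    have h2 : Z ≤ q * Z := by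
      have : 0 < Z := by rw [hZ]; positivity
      nlinarith
    have h3 : (q : ℝ) * ((P a m : ℝ) / (a m : ℝ)) < q * (T + Z) := by linarith
    exact lt_of_mul_lt_mul_left h3 (by linarith)
  · have h1 : (q : ℝ) * T < q * ((P a (m + 1) : ℝ) / (a (m + 1) : ℝ)) := by linarith [hwm1.2]
    exact lt_of_mul_lt_mul_left h1 (by linarith)
  · rw [hDm, div_le_iff₀ (by linarith)]
    linarith [hwm.1, hwm1.2]

/-- near-integrality of `q L_n / a_n` -/
theorem near_int (ha : ∀ n, 0 < a n)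
    (hlim : Tendsto (fun n => (a (n + 1) : ℝ) / (a n : ℝ) ^ 2) atTop (𝓝 1))
    (hinf : Tendsto (fun n => (a n : ℝ)) atTop atTop) (p q : ℤ) (hq : 0 < q)
    (hsum : HasSum (fun n => (1 : ℝ) / (a n : ℝ)) ((p : ℝ) / q)) :
    ∃ Y : ℕ → ℤ, Tendsto (fun n => (q : ℝ) * ((L a n : ℝ) / (a n : ℝ)) - (Y n : ℝ))
      atTop (𝓝 0) := by
  have hpq := hpq_of hq hsum
  have hX := X_sub ha hlim hinf hsum.summable p q hq hpq
  choose Y hY using fun n => G_dvd_X a p q n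
  refine ⟨Y, ?_⟩
  refine squeeze_zero_norm (fun n => ?_) (by simpa using hX.norm)
  have hG : (1 : ℝ) ≤ (G a n : ℝ) := by exact_mod_cast G_pos ha n
  have h1 : (X a p q n : ℝ) = (G a n : ℝ) * (Y n : ℝ) := by exact_mod_cast hY n
  have h2 : (X a p q n : ℝ) - q * ((P a n : ℝ) / (a n : ℝ))
      = -((G a n : ℝ) * ((q : ℝ) * ((L a n : ℝ) / (a n : ℝ)) - (Y n : ℝ))) := by
    rw [h1, P_eq]; push_cast; ring
  rw [h2, Real.norm_eq_abs, abs_neg, abs_mul, abs_of_nonneg (by linarith : (0:ℝ) ≤ (G a n : ℝ))]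
  exact le_mul_of_one_le_left (abs_nonneg _) hG

end Pool.Agent.Helper580.Rec
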